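import Mathlib
import Pool.Agent.TOKS.TutteForm

/-!
# Packing two disjoint inconsistent paths: definitions

`F` = terminals with colours `κ`; an `F`-path `a..b` is *inconsistent* if its length is odd iff the ends have
the same colour.  `DX` = the doubled vertex set: every vertex outside `F` has two copies `(v, false)`, `(v, true)`,
a vertex of `F` only the copy with the label `κ v`; plus `k` universal vertices.
-/

set_option autoImplicit false
set_option linter.unusedSectionVars false

namespace Pool.Agent.TOKSP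

variable {V : Type} [Fintype V] [DecidableEq V]

/-- two disjoint inconsistent `F`-paths -/
def TwoIncons (G : SimpleGraph V) (F : Finset V) (κ : V → Bool) : Prop :=
  ∃ (a b c d : V) (p : G.Walk a b) (q : G.Walk c d),
    a ∈ F ∧ b ∈ F ∧ c ∈ F ∧ d ∈ F ∧ a ≠ b ∧ c ≠ d ∧ p.IsPath ∧ q.IsPath ∧
    (Odd p.length ↔ κ a = κ b) ∧ (Odd q.length ↔ κ c = κ d) ∧
    (∀ x ∈ p.support, x ∉ q.support) ∧
    (∀ x ∈ p.support, x ∈ F → x = a ∨ x = b) ∧ (∀ x ∈ q.support, x ∈ F → x = c ∨ x = d)

/-- the doubled vertex set -/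
abbrev DX (F : Finset V) (κ : V → Bool) (k : ℕ) : Type :=
  {p : V × Bool // p.1 ∈ F → p.2 = κ p.1} ⊕ Fin k

/-- adjacency in the doubled graph -/
def dAdj (G : SimpleGraph V) {F : Finset V} {κ : V → Bool} {k : ℕ} : DX F κ k → DX F κ k → Prop
  | .inl p, .inl q => (G.Adj p.1.1 q.1.1 ∧ p.1.2 = q.1.2) ∨ (p.1.1 = q.1.1 ∧ p.1.2 ≠ q.1.2)
  | .inl _, .inr _ => True
  | .inr _, .inl _ => True
  | .inr i, .inr j => i ≠ j

/-- the doubled graph -/
def dGraph (G : SimpleGraph V) (F : Finset V) (κ : V → Bool) (k : ℕ) : SimpleGraph (DX F κ k) where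
  Adj := dAdj G
  symm := by
    constructor
    rintro (p | i) (q | j) h
    · rcases h with ⟨h1, h2⟩ | ⟨h1, h2⟩
      · exact Or.inl ⟨h1.symm, h2.symm⟩
      · exact Or.inr ⟨h1.symm, fun h => h2 h.symm⟩
    · trivial
    · trivial
    · exact fun h' => h h'.symm
  loopless := by
    constructor
    rintro (p | i) h
    · rcases h with ⟨h1, _⟩ | ⟨_, h2⟩
      · exact G.loopless.irrefl _ h1
      · exact h2 rfl
    · exact h rfl

/-- the involution exchanging the two copies of a vertex outside `F` -/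
def dFlip {F : Finset V} {κ : V → Bool} {k : ℕ} : DX F κ k → DX F κ k
  | .inl p => if h : p.1.1 ∈ F then .inl p else .inl ⟨(p.1.1, !p.1.2), fun h' => absurd h' h⟩
  | .inr i => .inr i

/-- the copy of a vertex with label `i` (`hi` is needed for `v ∈ F`) -/
def cp {F : Finset V} {κ : V → Bool} {k : ℕ} (v : V) (i : Bool) (hi : v ∈ F → i = κ v) : DX F κ k :=
  .inl ⟨(v, i), hi⟩

/-- The obstruction to two disjoint inconsistent `F`-paths.  `Z`: deleted vertices, `D`: uncoloured vertices,
`c`: the colours of the others, `part`: the components, `B`: the coloured vertices of the exceptional component. -/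
structure Obstr (G : SimpleGraph V) (F : Finset V) (κ : V → Bool) (Z D B : Finset V) (c : V → Bool)
    (part : V → ℕ) : Prop where
  zcard : Z.card ≤ 1
  zB : Z.Nonempty → B = ∅
  bcard : B.card ≤ 3
  dF : Disjoint D F
  dZ : Disjoint D Z
  bZ : Disjoint B Z
  bD : Disjoint B D
  bpart : ∀ u ∈ B, ∀ v ∈ B, part u = part v
  col : ∀ v ∈ F, v ∉ Z → c v = κ v
  adj : ∀ u v, G.Adj u v → u ∉ Z → v ∉ Z → (u ∈ D ∨ v ∈ D ∨ c u = c v) → part u = part v
  inj : ∀ u v, u ≠ v → u ∉ Z → v ∉ Z → u ∉ D → v ∉ D → part u = part v → u ∈ B ∧ v ∈ B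

end Pool.Agent.TOKSP
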