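import Mathlib

/-!
# Module PK1: a walk from a sequence of vertices
-/

set_option autoImplicit false

namespace Pool.Agent.TOKSP

theorem exists_walk_of_seq {V : Type} {G : SimpleGraph V} (v : ℕ → V) (m : ℕ)
    (h : ∀ t < m, G.Adj (v t) (v (t + 1))) :
    ∃ p : G.Walk (v 0) (v m), p.length = m ∧ (∀ x, x ∈ p.support ↔ ∃ t ≤ m, v t = x) ∧
      ((∀ i j, i < j → j ≤ m → v i ≠ v j) → p.IsPath) := by
  induction m with
  | zero =>
    refine ⟨SimpleGraph.Walk.nil, rfl, ?_, fun _ => SimpleGraph.Walk.IsPath.nil⟩
    intro x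
    rw [SimpleGraph.Walk.support_nil, List.mem_singleton]
    constructor
    · rintro rfl
      exact ⟨0, le_refl _, rfl⟩
    · rintro ⟨t, ht, rfl⟩
      rw [Nat.le_zero.1 ht]
  | succ m ih =>
    obtain ⟨p, hp1, hp2, hp3⟩ := ih (fun t ht => h t (by omega))
    refine ⟨p.concat (h m (by omega)), by rw [SimpleGraph.Walk.length_concat, hp1], ?_, ?_⟩
    · intro x
      rw [SimpleGraph.Walk.support_concat, List.mem_append, List.mem_singleton, hp2]
      constructor
      · rintro (⟨t, ht, rfl⟩ | hx)
        · exact ⟨t, by omega, rfl⟩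
        · exact ⟨m + 1, le_refl _, hx.symm⟩
      · rintro ⟨t, ht, rfl⟩
        rcases Nat.lt_or_ge t (m + 1) with h1 | h1
        · exact Or.inl ⟨t, by omega, rfl⟩
        · have : t = m + 1 := by omega
          subst this
          exact Or.inr rfl
    · intro hinj
      have h1 := hp3 (fun i j hij hj => hinj i j hij (by omega))
      rw [SimpleGraph.Walk.isPath_def, SimpleGraph.Walk.support_concat, List.nodup_append]
      refine ⟨h1.support_nodup, List.nodup_singleton _, ?_⟩
      intro a ha b hb
      rw [List.mem_singleton] at hb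
      subst hb
      rw [hp2] at ha
      obtain ⟨t, ht, rfl⟩ := ha
      exact hinj t (m + 1) (by omega) (le_refl _)

end Pool.Agent.TOKSP
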