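import Mathlib
import Pool.Agent.TOKSP.Defs
import Pool.Agent.TOKSP.SeqWalk

/-!
# Module PK3: the path of a perfect matching of the doubled graph between two paired terminals
-/

set_option autoImplicit false
set_option linter.unusedSectionVars false

namespace Pool.Agent.TOKSP

variable {V : Type} [Fintype V] [DecidableEq V]

namespace PathOfAux

variable {F : Finset V} {κ : V → Bool} {k : ℕ}

theorem cp_inj {v w : V} {i j : Bool} {hi : v ∈ F → i = κ v} {hj : w ∈ F → j = κ w}
    (h : (cp v i hi : DX F κ k) = cp w j hj) : v = w ∧ i = j := by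
  unfold cp at h
  have h1 := Sum.inl_injective h
  have h2 := congrArg Subtype.val h1
  exact ⟨congrArg Prod.fst h2, congrArg Prod.snd h2⟩

theorem cp_congr {v w : V} {i j : Bool} {hi : v ∈ F → i = κ v} {hj : w ∈ F → j = κ w}
    (h1 : v = w) (h2 : i = j) : (cp v i hi : DX F κ k) = cp w j hj := by
  subst h1 h2
  rfl

theorem exists_cp (x : DX F κ k) : (∃ v i hi, x = cp v i hi) ∨ ∃ j, x = Sum.inr j := by
  rcases x with ⟨⟨v, i⟩, hi⟩ | j
  · exact Or.inl ⟨v, i, hi, rfl⟩
  · exact Or.inr ⟨j, rfl⟩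

theorem dFlip_cp_mem {v : V} {i : Bool} {hi : v ∈ F → i = κ v} (h : v ∈ F) :
    dFlip (cp v i hi : DX F κ k) = cp v i hi := by
  unfold cp dFlip
  simp [h]

theorem dFlip_cp_notMem {v : V} {i : Bool} {hi : v ∈ F → i = κ v} (h : v ∉ F) :
    dFlip (cp v i hi : DX F κ k) = cp v (!i) (fun h' => absurd h' h) := by
  unfold cp dFlip
  simp [h]

theorem dFlip_inr (j : Fin k) : dFlip (Sum.inr j : DX F κ k) = Sum.inr j := rfl

theorem adj_cp {G : SimpleGraph V} {v w : V} {i j : Bool} {hi : v ∈ F → i = κ v}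
    {hj : w ∈ F → j = κ w} :
    (dGraph G F κ k).Adj (cp v i hi) (cp w j hj) ↔ (G.Adj v w ∧ i = j) ∨ (v = w ∧ i ≠ j) :=
  Iff.rfl

end PathOfAux

open PathOfAux in
theorem path_of (G : SimpleGraph V) {F : Finset V} {κ : V → Bool} {k : ℕ}
    (f : DX F κ k → DX F κ k) (hadj : ∀ x, (dGraph G F κ k).Adj x (f x))
    {a b : V} (ha : a ∈ F) (hb : b ∈ F) {m : ℕ} (hm : 0 < m)
    (hend : (dFlip ∘ f)^[m] (cp a (κ a) (fun _ => rfl)) = cp b (κ b) (fun _ => rfl))
    (hint : ∀ t, 0 < t → t < m → dFlip ((dFlip ∘ f)^[t] (cp a (κ a) (fun _ => rfl))) ≠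
      (dFlip ∘ f)^[t] (cp a (κ a) (fun _ => rfl)))
    (hinj : ∀ i j, i < j → j ≤ m →
      (dFlip ∘ f)^[i] (cp a (κ a) (fun _ => rfl)) ≠ (dFlip ∘ f)^[j] (cp a (κ a) (fun _ => rfl)) ∧
      (dFlip ∘ f)^[i] (cp a (κ a) (fun _ => rfl)) ≠
        dFlip ((dFlip ∘ f)^[j] (cp a (κ a) (fun _ => rfl)))) :
    ∃ p : G.Walk a b, p.IsPath ∧ (Odd p.length ↔ κ a = κ b) ∧
      (∀ x ∈ p.support, x ∈ F → x = a ∨ x = b) ∧
      (∀ x ∈ p.support, ∃ (t : ℕ) (i : Bool) (hi : x ∈ F → i = κ x), t ≤ m ∧
        (dFlip ∘ f)^[t] (cp a (κ a) (fun _ => rfl)) = cp x i hi) := by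
  classical
  set x : ℕ → DX F κ k := fun t => (dFlip ∘ f)^[t] (cp a (κ a) (fun _ => rfl)) with hx
  have hx0 : x 0 = cp a (κ a) (fun _ => rfl) := rfl
  have hxs : ∀ t, x (t + 1) = dFlip (f (x t)) := by
    intro t
    simp only [hx]
    rw [Function.iterate_succ_apply']
    rfl
  have hxm : x m = cp b (κ b) (fun _ => rfl) := hend
  -- all `x t` are copies of vertices
  have hcp : ∀ t ≤ m, ∃ v i hi, x t = cp v i hi := by
    intro t ht
    rcases Nat.eq_zero_or_pos t with h0 | h0
    · subst h0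
      exact ⟨a, κ a, fun _ => rfl, hx0⟩
    rcases Nat.lt_or_ge t m with h1 | h1
    · rcases exists_cp (x t) with h | ⟨j, h⟩
      · exact h
      · exfalso
        apply hint t h0 h1
        change dFlip (x t) = x t
        rw [h]
        rfl
    · have : t = m := by omega
      subst this
      exact ⟨b, κ b, fun _ => rfl, hxm⟩
  have hnotF : ∀ t, 0 < t → t < m → ∀ v i hi, x t = cp v i hi → v ∉ F := by
    intro t h0 h1 v i hi h hv
    apply hint t h0 h1
    change dFlip (x t) = x t
    rw [h]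
    exact dFlip_cp_mem hv
  -- the vertex and the label
  set v : ℕ → V := fun t => if h : t ≤ m then (hcp t h).choose else a with hv
  set l : ℕ → Bool := fun t => if h : t ≤ m then (hcp t h).choose_spec.choose else true with hl
  have hvl : ∀ t ≤ m, ∃ hi, x t = cp (v t) (l t) hi := by
    intro t ht
    have h1 := (hcp t ht).choose_spec.choose_spec
    have h2 : v t = (hcp t ht).choose := by simp only [hv]; rw [dif_pos ht]
    have h3 : l t = (hcp t ht).choose_spec.choose := by simp only [hl]; rw [dif_pos ht]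
    rw [h2, h3]
    exact h1
  -- one step
  have hstep : ∀ t < m, G.Adj (v t) (v (t + 1)) ∧
      (v (t + 1) ∈ F → l (t + 1) = l t) ∧ (v (t + 1) ∉ F → l (t + 1) = !l t) := by
    intro t ht
    obtain ⟨h1, hxt⟩ := hvl t (by omega)
    obtain ⟨h2, hxt1⟩ := hvl (t + 1) (by omega)
    have h3 := hadj (x t)
    have h4 := hxs t
    rcases exists_cp (f (x t)) with ⟨w, j, hj, hw⟩ | ⟨j, hj⟩
    · rw [hw] at h3 h4
      rw [hxt, adj_cp] at h3
      by_cases hwF : w ∈ F
      · rw [dFlip_cp_mem hwF, hxt1] at h4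
        obtain ⟨h5, h6⟩ := cp_inj h4
        rcases h3 with ⟨h7, h8⟩ | ⟨h7, h8⟩
        · refine ⟨by rw [h5]; exact h7, fun _ => by rw [h6, h8], fun h => absurd (h5 ▸ hwF) h⟩
        · exfalso
          apply h8
          have h9 := hj hwF
          have h10 := h1 (h7 ▸ hwF)
          rw [h9, h10, h7]
      · rw [dFlip_cp_notMem hwF, hxt1] at h4
        obtain ⟨h5, h6⟩ := cp_inj h4
        rcases h3 with ⟨h7, h8⟩ | ⟨h7, h8⟩
        · refine ⟨by rw [h5]; exact h7, fun h => absurd (h5 ▸ h) hwF, fun _ => by rw [h6, h8]⟩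
        · exfalso
          apply (hinj t (t + 1) (by omega) (by omega)).1
          change x t = x (t + 1)
          rw [hxt, hxt1]
          apply cp_congr
          · rw [h5, h7]
          · rw [h6]
            revert h8
            cases l t <;> cases j <;> simp
    · exfalso
      rw [hj, dFlip_inr, hxt1] at h4
      unfold cp at h4
      exact Sum.inl_ne_inr h4
  -- labels
  have hlab : ∀ t, t < m → l t = xor (κ a) (decide (t % 2 = 1)) := by
    intro t
    induction t with
    | zero =>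
      intro _
      obtain ⟨h1, h2⟩ := hvl 0 (by omega)
      rw [hx0] at h2
      obtain ⟨_, h3⟩ := cp_inj h2
      rw [← h3]
      simp
    | succ t ih =>
      intro ht
      obtain ⟨h1, h2⟩ := hvl (t + 1) (by omega)
      have h3 := hnotF (t + 1) (by omega) ht _ _ _ h2
      rw [(hstep t (by omega)).2.2 h3, ih (by omega)]
      rcases Nat.mod_two_eq_zero_or_one t with h | h
      · have h' : (t + 1) % 2 = 1 := by omega
        rw [h, h']
        cases κ a <;> rfl
      · have h' : (t + 1) % 2 = 0 := by omega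
        rw [h, h']
        cases κ a <;> rfl
  have hv0 : v 0 = a := by
    obtain ⟨h1, h2⟩ := hvl 0 (by omega)
    rw [hx0] at h2
    exact (cp_inj h2).1.symm
  have hvm : v m = b := by
    obtain ⟨h1, h2⟩ := hvl m (le_refl _)
    rw [hxm] at h2
    exact (cp_inj h2).1.symm
  have hlm : l m = κ b := by
    obtain ⟨h1, h2⟩ := hvl m (le_refl _)
    rw [hxm] at h2
    exact (cp_inj h2).2.symm
  have hodd : Odd m ↔ κ a = κ b := by
    obtain ⟨n, rfl⟩ : ∃ n, m = n + 1 := ⟨m - 1, by omega⟩
    have h1 := (hstep n (by omega)).2.1 (by rw [hvm]; exact hb)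
    rw [hlm, hlab n (by omega)] at h1
    rw [h1, Nat.odd_iff]
    rcases Nat.mod_two_eq_zero_or_one n with h | h
    · have h' : (n + 1) % 2 = 1 := by omega
      rw [h, h']
      cases κ a <;> simp
    · have h' : (n + 1) % 2 = 0 := by omega
      rw [h, h']
      cases κ a <;> simp
  obtain ⟨p, hp1, hp2, hp3⟩ := exists_walk_of_seq (G := G) v m (fun t ht => (hstep t ht).1)
  have hpath : p.IsPath := by
    apply hp3
    intro i j hij hj h
    obtain ⟨h1, h2⟩ := hvl i (by omega)
    obtain ⟨h3, h4⟩ := hvl j hj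
    by_cases hl' : l i = l j
    · apply (hinj i j hij hj).1
      change x i = x j
      rw [h2, h4]
      exact cp_congr h hl'
    · have hF : v j ∉ F := by
        intro hF
        apply hl'
        rw [h1 (h ▸ hF), h3 hF, h]
      apply (hinj i j hij hj).2
      change x i = dFlip (x j)
      rw [h2, h4, dFlip_cp_notMem hF]
      apply cp_congr h
      revert hl'
      cases l i <;> cases l j <;> simp
  refine ⟨p.copy hv0 hvm, ?_, ?_, ?_, ?_⟩
  · rw [SimpleGraph.Walk.isPath_def, SimpleGraph.Walk.support_copy]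
    exact hpath.support_nodup
  · rw [SimpleGraph.Walk.length_copy, hp1]
    exact hodd
  · intro y hy hyF
    rw [SimpleGraph.Walk.support_copy, hp2] at hy
    obtain ⟨t, ht, rfl⟩ := hy
    rcases Nat.eq_zero_or_pos t with h0 | h0
    · left; rw [h0, hv0]
    rcases Nat.lt_or_ge t m with h1 | h1
    · exfalso
      obtain ⟨h2, h3⟩ := hvl t ht
      exact hnotF t h0 h1 _ _ _ h3 hyF
    · right
      have : t = m := by omega
      rw [this, hvm]
  · intro y hy
    rw [SimpleGraph.Walk.support_copy, hp2] at hy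
    obtain ⟨t, ht, rfl⟩ := hy
    obtain ⟨h2, h3⟩ := hvl t ht
    exact ⟨t, l t, h2, ht, h3⟩

end Pool.Agent.TOKSP
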