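import Mathlib
import Pool.Agent.TOKSP.Defs
import Pool.Agent.TOKSP.PathOf

/-!
# Module PK6: the number of `Y`-elements
-/

set_option autoImplicit false
set_option linter.unusedSectionVars false

namespace Pool.Agent.TOKSP

variable {V : Type} [Fintype V] [DecidableEq V]

/-- the vertices without surviving copy -/
def ZZ {F : Finset V} {κ : V → Bool} {k : ℕ} (S : Finset (DX F κ k)) : Finset V :=
  Finset.univ.filter (fun v => ∀ i : Bool, ∀ hi : v ∈ F → i = κ v, (cp v i hi : DX F κ k) ∈ S)

namespace CountYAux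

variable {F : Finset V} {κ : V → Bool} {k : ℕ}

/-- the contribution of the copy `(v, i)` -/
def ct (T : Finset (DX F κ k)) (v : V) (i : Bool) : ℕ :=
  if h : (v ∈ F → i = κ v) then (if (cp v i h : DX F κ k) ∈ T then 1 else 0) else 0

theorem card_eq (T : Finset (DX F κ k)) :
    T.card = ∑ v : V, (ct T v true + ct T v false) +
      (Finset.univ.filter (fun j : Fin k => (Sum.inr j : DX F κ k) ∈ T)).card := by
  have h1 : T.card = ∑ x : DX F κ k, if x ∈ T then 1 else 0 := by
    rw [Finset.sum_ite_mem, Finset.univ_inter, Finset.sum_const, smul_eq_mul, mul_one]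
  rw [h1, Fintype.sum_sum_type]
  congr 1
  · have h2 : ∑ p : V × Bool, ct T p.1 p.2 = ∑ v : V, (ct T v true + ct T v false) := by
      rw [Fintype.sum_prod_type]
      apply Finset.sum_congr rfl
      intro v _
      rw [Fintype.sum_bool]
    rw [← h2]
    have h3 : ∑ p : V × Bool, ct T p.1 p.2 =
        ∑ p ∈ Finset.univ.filter (fun p : V × Bool => p.1 ∈ F → p.2 = κ p.1), ct T p.1 p.2 := by
      symm
      apply Finset.sum_filter_of_ne
      intro p _ hp
      by_contra h
      apply hp
      unfold ct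
      rw [dif_neg h]
    rw [h3, Finset.sum_subtype (p := fun p : V × Bool => p.1 ∈ F → p.2 = κ p.1) _
      (fun x => by simp)]
    apply Finset.sum_congr rfl
    intro x _
    unfold ct
    rw [dif_pos x.2]
    rfl
  · rw [Finset.card_filter]

theorem ct_mem (T : Finset (DX F κ k)) {v : V} (hv : v ∈ F) :
    ct T v true + ct T v false =
      if (cp v (κ v) (fun _ => rfl) : DX F κ k) ∈ T then 1 else 0 := by
  rcases Bool.eq_false_or_eq_true (κ v) with h | h
  · have e : (cp v (κ v) (fun _ => rfl) : DX F κ k) = cp v true (fun _ => h.symm) :=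
      PathOfAux.cp_congr rfl h
    rw [e]
    unfold ct
    rw [dif_pos (fun _ => h.symm), dif_neg (by simp [hv, h]), Nat.add_zero]
  · have e : (cp v (κ v) (fun _ => rfl) : DX F κ k) = cp v false (fun _ => h.symm) :=
      PathOfAux.cp_congr rfl h
    rw [e]
    unfold ct
    rw [dif_neg (by simp [hv, h]), dif_pos (fun _ => h.symm), Nat.zero_add]

theorem ct_notMem (T : Finset (DX F κ k)) {v : V} (hv : v ∉ F) (i : Bool) :
    ct T v i = if (cp v i (fun h => absurd h hv) : DX F κ k) ∈ T then 1 else 0 := by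
  unfold ct
  rw [dif_pos (fun h => absurd h hv)]

theorem mem_ZZ {S : Finset (DX F κ k)} {v : V} : v ∈ ZZ S ↔
    ∀ i : Bool, ∀ hi : v ∈ F → i = κ v, (cp v i hi : DX F κ k) ∈ S := by
  unfold ZZ
  simp

theorem mem_ZZ_mem {S : Finset (DX F κ k)} {v : V} (hv : v ∈ F) : v ∈ ZZ S ↔
    (cp v (κ v) (fun _ => rfl) : DX F κ k) ∈ S := by
  rw [mem_ZZ]
  constructor
  · intro h
    exact h _ _
  · intro h i hi
    have := hi hv
    subst this
    exact h

theorem mem_ZZ_notMem {S : Finset (DX F κ k)} {v : V} (hv : v ∉ F) : v ∈ ZZ S ↔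
    (cp v true (fun h => absurd h hv) : DX F κ k) ∈ S ∧
      (cp v false (fun h => absurd h hv) : DX F κ k) ∈ S := by
  rw [mem_ZZ]
  constructor
  · intro h
    exact ⟨h _ _, h _ _⟩
  · rintro ⟨h1, h2⟩ i hi
    rcases i with _ | _
    · exact h2
    · exact h1

end CountYAux

open CountYAux PathOfAux

theorem card_Y {F : Finset V} {κ : V → Bool} {k : ℕ} (S : Finset (DX F κ k))
    (hk : F.card = k + 4) (hS : ∀ i : Fin k, (Sum.inr i : DX F κ k) ∈ S) :
    (Finset.univ.filter (fun x : DX F κ k => x ∉ S ∧ (dFlip x = x ∨ dFlip x ∈ S))).card +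
      2 * (ZZ S).card = S.card + 4 := by
  set Y := Finset.univ.filter (fun x : DX F κ k => x ∉ S ∧ (dFlip x = x ∨ dFlip x ∈ S)) with hY
  have hYm : ∀ x : DX F κ k, x ∈ Y ↔ x ∉ S ∧ (dFlip x = x ∨ dFlip x ∈ S) := by
    intro x
    rw [hY]
    simp
  have h1 := card_eq Y
  have h2 := card_eq S
  have h3 : (Finset.univ.filter (fun j : Fin k => (Sum.inr j : DX F κ k) ∈ Y)).card = 0 := by
    rw [Finset.card_eq_zero, Finset.filter_eq_empty_iff]
    intro j _ hj
    rw [hYm] at hj
    exact hj.1 (hS j)
  have h4 : (Finset.univ.filter (fun j : Fin k => (Sum.inr j : DX F κ k) ∈ S)).card = k := by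
    rw [Finset.filter_true_of_mem (fun j _ => hS j), Finset.card_univ, Fintype.card_fin]
  have h5 : (ZZ S).card = ∑ v : V, if v ∈ ZZ S then 1 else 0 := by
    rw [Finset.sum_ite_mem, Finset.univ_inter, Finset.sum_const, smul_eq_mul, mul_one]
  have h6 : F.card = ∑ v : V, if v ∈ F then 1 else 0 := by
    rw [Finset.sum_ite_mem, Finset.univ_inter, Finset.sum_const, smul_eq_mul, mul_one]
  have h7 : ∀ v : V, (ct Y v true + ct Y v false) + 2 * (if v ∈ ZZ S then 1 else 0) =
      (ct S v true + ct S v false) + (if v ∈ F then 1 else 0) := by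
    intro v
    by_cases hv : v ∈ F
    · rw [ct_mem _ hv, ct_mem _ hv, if_pos hv]
      by_cases h : (cp v (κ v) (fun _ => rfl) : DX F κ k) ∈ S
      · have h' : (cp v (κ v) (fun _ => rfl) : DX F κ k) ∉ Y := by
          rw [hYm]
          exact fun h' => h'.1 h
        rw [if_neg h', if_pos h, if_pos ((mem_ZZ_mem hv).2 h)]
      · have h' : (cp v (κ v) (fun _ => rfl) : DX F κ k) ∈ Y := by
          rw [hYm]
          exact ⟨h, Or.inl (dFlip_cp_mem hv)⟩
        rw [if_pos h', if_neg h, if_neg (fun h'' => h ((mem_ZZ_mem hv).1 h''))]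
    · rw [ct_notMem _ hv, ct_notMem _ hv, ct_notMem _ hv, ct_notMem _ hv, if_neg hv]
      have hft : dFlip (cp v true (fun h => absurd h hv) : DX F κ k) =
          cp v false (fun h => absurd h hv) := dFlip_cp_notMem hv
      have hff : dFlip (cp v false (fun h => absurd h hv) : DX F κ k) =
          cp v true (fun h => absurd h hv) := dFlip_cp_notMem hv
      have hne : (cp v false (fun h => absurd h hv) : DX F κ k) ≠
          cp v true (fun h => absurd h hv) := by
        intro h
        have := (cp_inj h).2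
        exact absurd this (by decide)
      have hT : (cp v true (fun h => absurd h hv) : DX F κ k) ∈ Y ↔
          (cp v true (fun h => absurd h hv) : DX F κ k) ∉ S ∧
          (cp v false (fun h => absurd h hv) : DX F κ k) ∈ S := by
        rw [hYm, hft]
        constructor
        · rintro ⟨h8, h9 | h9⟩
          · exact absurd h9 hne
          · exact ⟨h8, h9⟩
        · rintro ⟨h8, h9⟩
          exact ⟨h8, Or.inr h9⟩
      have hFa : (cp v false (fun h => absurd h hv) : DX F κ k) ∈ Y ↔
          (cp v false (fun h => absurd h hv) : DX F κ k) ∉ S ∧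
          (cp v true (fun h => absurd h hv) : DX F κ k) ∈ S := by
        rw [hYm, hff]
        constructor
        · rintro ⟨h8, h9 | h9⟩
          · exact absurd h9.symm hne
          · exact ⟨h8, h9⟩
        · rintro ⟨h8, h9⟩
          exact ⟨h8, Or.inr h9⟩
      have hZ := mem_ZZ_notMem (S := S) hv
      by_cases ha : (cp v true (fun h => absurd h hv) : DX F κ k) ∈ S <;>
        by_cases hb : (cp v false (fun h => absurd h hv) : DX F κ k) ∈ S <;>
        simp [hT, hFa, hZ, ha, hb]
  have h8 : ∑ v : V, ((ct Y v true + ct Y v false) + 2 * (if v ∈ ZZ S then 1 else 0)) =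
      ∑ v : V, ((ct S v true + ct S v false) + (if v ∈ F then 1 else 0)) :=
    Finset.sum_congr rfl (fun v _ => h7 v)
  rw [Finset.sum_add_distrib, ← Finset.mul_sum, ← h5,
    Finset.sum_add_distrib (f := fun v => ct S v true + ct S v false), ← h6] at h8
  omega

theorem even_card_DX {F : Finset V} {κ : V → Bool} {k : ℕ} (hk : F.card = k + 4) :
    Even (Fintype.card (DX F κ k)) := by
  have h1 := card_eq (Finset.univ : Finset (DX F κ k))
  rw [Finset.card_univ] at h1
  have h4 : (Finset.univ.filter
      (fun j : Fin k => (Sum.inr j : DX F κ k) ∈ (Finset.univ : Finset (DX F κ k)))).card = k := by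
    rw [Finset.filter_true_of_mem (fun j _ => Finset.mem_univ _), Finset.card_univ,
      Fintype.card_fin]
  have h6 : F.card = ∑ v : V, if v ∈ F then 1 else 0 := by
    rw [Finset.sum_ite_mem, Finset.univ_inter, Finset.sum_const, smul_eq_mul, mul_one]
  have h7 : ∀ v : V, (ct (Finset.univ : Finset (DX F κ k)) v true +
      ct (Finset.univ : Finset (DX F κ k)) v false) + (if v ∈ F then 1 else 0) = 2 := by
    intro v
    by_cases hv : v ∈ F
    · rw [ct_mem _ hv, if_pos hv, if_pos (Finset.mem_univ _)]
    · rw [ct_notMem _ hv, ct_notMem _ hv, if_neg hv, if_pos (Finset.mem_univ _),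
        if_pos (Finset.mem_univ _)]
  have h8 : ∑ v : V, ((ct (Finset.univ : Finset (DX F κ k)) v true +
      ct (Finset.univ : Finset (DX F κ k)) v false) + (if v ∈ F then 1 else 0)) =
      ∑ v : V, 2 := Finset.sum_congr rfl (fun v _ => h7 v)
  rw [Finset.sum_add_distrib (g := fun v => if v ∈ F then 1 else 0), ← h6, Finset.sum_const,
    smul_eq_mul] at h8
  rw [h4] at h1
  rw [Nat.even_iff]
  omega

end Pool.Agent.TOKSP
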