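import Mathlib

/-!
# Module PK2: two involutions
-/

set_option autoImplicit false

namespace Pool.Agent.TOKSP

namespace DihedralAux

variable {X : Type}

/-- `g` conjugates `h = g ∘ f` to its inverse: `h^[t] (g (h^[t] x)) = g x` -/
theorem conj (f g : X → X) (hf : ∀ x, f (f x) = x) (hg : ∀ x, g (g x) = x) (t : ℕ) (x : X) :
    (g ∘ f)^[t] (g ((g ∘ f)^[t] x)) = g x := by
  induction t with
  | zero => rfl
  | succ t ih =>
    rw [Function.iterate_succ_apply' (g ∘ f) t x, Function.iterate_succ_apply]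
    simp only [Function.comp_apply, hg, hf]
    exact ih

end DihedralAux

open DihedralAux in
theorem dihedral {X : Type} [Finite X] (f g : X → X) (hf : ∀ x, f (f x) = x)
    (hg : ∀ x, g (g x) = x) (hff : ∀ x, f x ≠ x) (a : X) (ha : g a = a) :
    ∃ m : ℕ, 0 < m ∧ g ((g ∘ f)^[m] a) = (g ∘ f)^[m] a ∧ (g ∘ f)^[m] a ≠ a ∧
      (∀ t, 0 < t → t < m → g ((g ∘ f)^[t] a) ≠ (g ∘ f)^[t] a) ∧
      (∀ i j, i < j → j ≤ m → (g ∘ f)^[i] a ≠ (g ∘ f)^[j] a ∧
        (g ∘ f)^[i] a ≠ g ((g ∘ f)^[j] a)) ∧
      (∀ a', g a' = a' → a' ≠ a → a' ≠ (g ∘ f)^[m] a → ∀ i j,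
        (g ∘ f)^[i] a ≠ (g ∘ f)^[j] a' ∧ (g ∘ f)^[i] a ≠ g ((g ∘ f)^[j] a')) := by
  have hinj : Function.Injective (g ∘ f) := by
    apply Function.Injective.comp
    · exact (Function.Involutive.injective hg)
    · exact (Function.Involutive.injective hf)
  have hper : a ∈ Function.periodicPts (g ∘ f) := by
    obtain ⟨i, j, hij, h⟩ := Finite.exists_ne_map_eq_of_infinite (fun n : ℕ => (g ∘ f)^[n] a)
    change (g ∘ f)^[i] a = (g ∘ f)^[j] a at h
    rcases lt_or_gt_of_ne hij with h1 | h1
    · refine ⟨j - i, by omega, ?_⟩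
      have h2 : (g ∘ f)^[i] ((g ∘ f)^[j - i] a) = (g ∘ f)^[i] a := by
        rw [← Function.iterate_add_apply, h]
        congr 2
        omega
      exact hinj.iterate i h2
    · refine ⟨i - j, by omega, ?_⟩
      have h2 : (g ∘ f)^[j] ((g ∘ f)^[i - j] a) = (g ∘ f)^[j] a := by
        rw [← Function.iterate_add_apply, ← h]
        congr 2
        omega
      exact hinj.iterate j h2
  set p := Function.minimalPeriod (g ∘ f) a with hp
  have hp0 : 0 < p := Function.minimalPeriod_pos_of_mem_periodicPts hper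
  have hpa : (g ∘ f)^[p] a = a := Function.iterate_minimalPeriod
  have hdvd : ∀ n, (g ∘ f)^[n] a = a ↔ p ∣ n := fun n =>
    Function.isPeriodicPt_iff_minimalPeriod_dvd
  -- `h^[i] a = g (h^[j] a') ↔ h^[i+j] a = a'`
  have hrefl : ∀ (a' : X), g a' = a' → ∀ i j, (g ∘ f)^[i] a = g ((g ∘ f)^[j] a') →
      (g ∘ f)^[i + j] a = a' := by
    intro a' ha' i j h
    rw [Nat.add_comm, Function.iterate_add_apply, h, conj f g hf hg, ha']
  have hrefl' : ∀ (a' : X), g a' = a' → ∀ i j, (g ∘ f)^[i + j] a = a' →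
      (g ∘ f)^[i] a = g ((g ∘ f)^[j] a') := by
    intro a' ha' i j h
    apply hinj.iterate j
    rw [conj f g hf hg, ← Function.iterate_add_apply, Nat.add_comm, h, ha']
  have hfix : ∀ t, g ((g ∘ f)^[t] a) = (g ∘ f)^[t] a ↔ p ∣ 2 * t := by
    intro t
    constructor
    · intro h
      rw [← hdvd, two_mul]
      exact hrefl a ha t t h.symm
    · intro h
      rw [← hdvd, two_mul] at h
      exact (hrefl' a ha t t h).symm
  have heven : ∃ m, p = 2 * m := by
    rcases Nat.even_or_odd' p with ⟨m, h | h⟩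
    · exact ⟨m, h⟩
    · exfalso
      have h1 : (g ∘ f)^[m + 1] a = g ((g ∘ f)^[m] a) := by
        apply hrefl' a ha
        have h3 : m + 1 + m = p := by omega
        rw [h3]
        exact hpa
      rw [Function.iterate_succ_apply'] at h1
      exact hff _ ((Function.Involutive.injective hg) h1)
  obtain ⟨m, hm⟩ := heven
  have hm0 : 0 < m := by omega
  -- an element of the orbit fixed by `g`
  have horb : ∀ n, g ((g ∘ f)^[n] a) = (g ∘ f)^[n] a →
      (g ∘ f)^[n] a = a ∨ (g ∘ f)^[n] a = (g ∘ f)^[m] a := by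
    intro n h
    rw [hfix] at h
    rw [hm] at h
    have h1 : m ∣ n := Nat.dvd_of_mul_dvd_mul_left (by norm_num) h
    obtain ⟨q, rfl⟩ := h1
    rcases Nat.even_or_odd' q with ⟨r, hr | hr⟩
    · left
      rw [hdvd, hm, hr]
      exact ⟨r, by ring⟩
    · right
      have h2 : m * q = m + p * r := by rw [hm, hr]; ring
      rw [h2, Function.iterate_add_apply]
      congr 1
      rw [hdvd]
      exact dvd_mul_right _ _
  refine ⟨m, hm0, ?_, ?_, ?_, ?_, ?_⟩
  · rw [hfix, hm]
  · intro h
    rw [hdvd] at h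
    have := Nat.le_of_dvd hm0 h
    omega
  · intro t ht htm h
    rw [hfix] at h
    have := Nat.le_of_dvd (by omega) h
    omega
  · intro i j hij hj
    constructor
    · intro h
      have h2 : (g ∘ f)^[i] ((g ∘ f)^[j - i] a) = (g ∘ f)^[i] a := by
        rw [← Function.iterate_add_apply, h]
        congr 2
        omega
      have h3 := hinj.iterate i h2
      rw [hdvd] at h3
      have := Nat.le_of_dvd (by omega) h3
      omega
    · intro h
      have h3 := hrefl a ha i j h
      rw [hdvd] at h3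
      have := Nat.le_of_dvd (by omega) h3
      omega
  · intro a' ha' hne hne' i j
    have key : ∀ n, (g ∘ f)^[n] a ≠ a' := by
      rintro n rfl
      rcases horb n ha' with h | h
      · exact hne h
      · exact hne' h
    constructor
    · intro h
      -- `a' = h^[n] a` with `n + j ≡ i`
      have h1 : (g ∘ f)^[j] ((g ∘ f)^[i + (p - 1) * j] a) = (g ∘ f)^[j] a' := by
        rw [← h, ← Function.iterate_add_apply]
        have h2 : j + (i + (p - 1) * j) = i + p * j := by
          have : p - 1 + 1 = p := by omega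
          nlinarith [this]
        rw [h2, Function.iterate_add_apply]
        congr 1
        rw [hdvd]
        exact dvd_mul_right _ _
      exact key _ (hinj.iterate j h1)
    · intro h
      exact key _ (hrefl a' ha' i j h)

end Pool.Agent.TOKSP
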