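import Mathlib
import Pool.Agent.TOKSP.Defs
import Pool.Agent.TOKSP.Dihedral
import Pool.Agent.TOKSP.PathOf

/-!
# Module PK4: a perfect matching of the doubled graph gives two disjoint inconsistent paths
-/

set_option autoImplicit false
set_option linter.unusedSectionVars false

namespace Pool.Agent.TOKSP

variable {V : Type} [Fintype V] [DecidableEq V]

open PathOfAux

theorem dFlip_dFlip {F : Finset V} {κ : V → Bool} {k : ℕ} (x : DX F κ k) :
    dFlip (dFlip x) = x := by
  rcases exists_cp x with ⟨v, i, hi, rfl⟩ | ⟨j, rfl⟩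
  · by_cases h : v ∈ F
    · rw [dFlip_cp_mem h, dFlip_cp_mem h]
    · rw [dFlip_cp_notMem h, dFlip_cp_notMem h]
      exact cp_congr rfl (by simp)
  · rfl

theorem twoIncons_of_matching (G : SimpleGraph V) {F : Finset V} {κ : V → Bool}
    (hF : 4 ≤ F.card) (f : DX F κ (F.card - 4) → DX F κ (F.card - 4)) (hf : ∀ x, f (f x) = x)
    (hadj : ∀ x, (dGraph G F κ (F.card - 4)).Adj x (f x)) : TwoIncons G F κ := by
  classical
  have hff : ∀ x, f x ≠ x := by
    intro x h
    have h1 := hadj x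
    rw [h] at h1
    exact (dGraph G F κ (F.card - 4)).loopless.irrefl _ h1
  have H : ∀ x : DX F κ (F.card - 4), dFlip x = x → _ := fun x hx =>
    dihedral f dFlip hf dFlip_dFlip hff x hx
  choose m hm0 hm1 hm2 hm3 hm4 hm5 using H
  set ft : V → DX F κ (F.card - 4) := fun a => cp a (κ a) (fun _ => rfl) with hft
  have hfix : ∀ a ∈ F, dFlip (ft a) = ft a := fun a ha => dFlip_cp_mem ha
  have hft_inj : ∀ a b, ft a = ft b → a = b := fun a b h => (cp_inj h).1
  set pt : V → DX F κ (F.card - 4) := fun a =>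
    if h : a ∈ F then (dFlip ∘ f)^[m (ft a) (hfix a h)] (ft a) else ft a with hpt
  have hpt_eq : ∀ a (h : a ∈ F), pt a = (dFlip ∘ f)^[m (ft a) (hfix a h)] (ft a) := by
    intro a h
    simp only [hpt]
    rw [dif_pos h]
  have hpt_fix : ∀ a ∈ F, dFlip (pt a) = pt a := by
    intro a h
    rw [hpt_eq a h]
    exact hm1 _ _
  have hpt_ne : ∀ a ∈ F, pt a ≠ ft a := by
    intro a h
    rw [hpt_eq a h]
    exact hm2 _ _
  have hpt_inj : ∀ a ∈ F, ∀ a' ∈ F, pt a = pt a' → a = a' := by
    intro a ha a' ha' h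
    by_contra hne
    have h1 : ft a' ≠ ft a := fun h' => hne (hft_inj _ _ h').symm
    by_cases h2 : ft a' = pt a
    · exact hpt_ne a' ha' (by rw [← h, h2])
    · rw [hpt_eq a ha] at h2 h
      rw [hpt_eq a' ha'] at h
      exact (hm5 (ft a) (hfix a ha) (ft a') (hfix a' ha') h1 h2 _ _).1 h
  have hcase : ∀ a ∈ F, (∃ b ∈ F, pt a = ft b) ∨ ∃ j, pt a = Sum.inr j := by
    intro a ha
    rcases exists_cp (pt a) with ⟨v, i, hi, h⟩ | h
    · left
      have h1 := hpt_fix a ha
      rw [h] at h1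
      by_cases hv : v ∈ F
      · exact ⟨v, hv, by rw [h]; exact cp_congr rfl (hi hv)⟩
      · exfalso
        rw [dFlip_cp_notMem hv] at h1
        have := (cp_inj h1).2
        revert this
        cases i <;> simp
    · exact Or.inr h
  set Q : Finset V := F.filter (fun a => ∃ b ∈ F, pt a = ft b) with hQ
  have hQc : (F \ Q).card ≤ F.card - 4 := by
    have h1 : ((F \ Q).image pt).card = (F \ Q).card := by
      apply Finset.card_image_of_injOn
      intro a ha a' ha' h
      rw [Finset.mem_coe, Finset.mem_sdiff] at ha ha'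
      exact hpt_inj a ha.1 a' ha'.1 h
    have h2 : (F \ Q).image pt ⊆
        (Finset.univ : Finset (Fin (F.card - 4))).image
          (fun j => (Sum.inr j : DX F κ (F.card - 4))) := by
      intro y hy
      rw [Finset.mem_image] at hy
      obtain ⟨a, ha, rfl⟩ := hy
      rw [Finset.mem_sdiff] at ha
      rcases hcase a ha.1 with h | ⟨j, h⟩
      · exact absurd (Finset.mem_filter.2 ⟨ha.1, h⟩) ha.2
      · rw [h]
        exact Finset.mem_image.2 ⟨j, Finset.mem_univ _, rfl⟩
    calc (F \ Q).card = ((F \ Q).image pt).card := h1.symm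
      _ ≤ _ := Finset.card_le_card h2
      _ ≤ (Finset.univ : Finset (Fin (F.card - 4))).card := Finset.card_image_le
      _ = F.card - 4 := by rw [Finset.card_univ, Fintype.card_fin]
  have hQ4 : 4 ≤ Q.card := by
    have h1 : (F \ Q).card = F.card - Q.card := by
      rw [Finset.card_sdiff_of_subset (Finset.filter_subset _ _)]
    have h2 : Q.card ≤ F.card := Finset.card_le_card (Finset.filter_subset _ _)
    omega
  obtain ⟨a, haQ⟩ : Q.Nonempty := Finset.card_pos.1 (by omega)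
  obtain ⟨haF, b, hbF, hab⟩ := Finset.mem_filter.1 haQ
  obtain ⟨c, hc⟩ : (Q \ {a, b}).Nonempty := by
    rw [← Finset.card_pos]
    have h1 := Finset.le_card_sdiff {a, b} Q
    have h2 : ({a, b} : Finset V).card ≤ 2 := Finset.card_le_two
    omega
  rw [Finset.mem_sdiff, Finset.mem_insert, Finset.mem_singleton, not_or] at hc
  obtain ⟨hcQ, hca, hcb⟩ := hc
  obtain ⟨hcF, d, hdF, hcd⟩ := Finset.mem_filter.1 hcQ
  have hab' : a ≠ b := by
    rintro rfl
    exact hpt_ne a haF hab
  have hcd' : c ≠ d := by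
    rintro rfl
    exact hpt_ne c hcF hcd
  rw [hpt_eq a haF] at hab
  rw [hpt_eq c hcF] at hcd
  obtain ⟨p, hp1, hp2, hp3, hp4⟩ := path_of G f hadj haF hbF (hm0 _ (hfix a haF)) hab
    (hm3 _ (hfix a haF)) (hm4 _ (hfix a haF))
  obtain ⟨q, hq1, hq2, hq3, hq4⟩ := path_of G f hadj hcF hdF (hm0 _ (hfix c hcF)) hcd
    (hm3 _ (hfix c hcF)) (hm4 _ (hfix c hcF))
  refine ⟨a, b, c, d, p, q, haF, hbF, hcF, hdF, hab', hcd', hp1, hq1, hp2, hq2, ?_, hp3, hq3⟩
  intro x hx hx'
  obtain ⟨t, i, hi, _, ht⟩ := hp4 x hx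
  obtain ⟨s, j, hj, _, hs⟩ := hq4 x hx'
  have h1 : ft c ≠ ft a := fun h => hca (hft_inj _ _ h)
  have h2 : ft c ≠ (dFlip ∘ f)^[m (ft a) (hfix a haF)] (ft a) := by
    rw [hab]
    exact fun h => hcb (hft_inj _ _ h)
  have h3 := hm5 (ft a) (hfix a haF) (ft c) (hfix c hcF) h1 h2 t s
  by_cases hij : i = j
  · apply h3.1
    change (dFlip ∘ f)^[t] (cp a (κ a) (fun _ => rfl)) =
      (dFlip ∘ f)^[s] (cp c (κ c) (fun _ => rfl))
    rw [ht, hs]
    exact cp_congr rfl hij
  · have hxF : x ∉ F := by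
      intro hxF
      exact hij (by rw [hi hxF, hj hxF])
    apply h3.2
    change (dFlip ∘ f)^[t] (cp a (κ a) (fun _ => rfl)) =
      dFlip ((dFlip ∘ f)^[s] (cp c (κ c) (fun _ => rfl)))
    rw [ht, hs, dFlip_cp_notMem hxF]
    apply cp_congr rfl
    revert hij
    cases i <;> cases j <;> simp

end Pool.Agent.TOKSP
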