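import Mathlib
import Pool.Agent.TOKS.TutteForm

/-!
# Module PK5: parity in a Tutte violator
-/

set_option autoImplicit false
set_option linter.unusedSectionVars false

namespace Pool.Agent.TOKSP

open Pool.Agent.TOKS

variable {X : Type} [Fintype X] [DecidableEq X]

namespace ParityAux

omit [Fintype X] in
/-- a set closed under a fixed-point-free involution is even -/
theorem even_of_invol (T : Finset X) (g : X → X) (hg : ∀ x, g (g x) = x)
    (h1 : ∀ x ∈ T, g x ∈ T) (h2 : ∀ x ∈ T, g x ≠ x) : Even T.card := by
  have h : ∑ x ∈ T, (1 : ZMod 2) = 0 := by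
    apply Finset.sum_involution (fun x _ => g x)
    · intro x _
      decide
    · intro x hx _
      exact h2 x hx
    · intro x hx
      exact h1 x hx
    · intro x _
      exact hg x
  rw [Finset.sum_const, nsmul_eq_mul, mul_one, ZMod.natCast_eq_zero_iff] at h
  exact (even_iff_two_dvd).2 h

end ParityAux

open ParityAux

theorem closed_even {H : SimpleGraph X} {S K : Finset X} (hdisj : Disjoint K S)
    (hcl : ∀ x ∈ K, ∀ y, H.Adj x y → y ∉ S → y ∈ K)
    (g : X → X) (hg : ∀ x, g (g x) = x) (hgH : ∀ x, g x ≠ x → H.Adj x (g x)) :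
    Even (K.filter (fun x => ¬ (g x = x ∨ g x ∈ S))).card := by
  apply even_of_invol _ g hg
  · intro x hx
    rw [Finset.mem_filter, not_or] at hx ⊢
    obtain ⟨hxK, hx1, hx2⟩ := hx
    refine ⟨hcl x hxK _ (hgH x hx1) hx2, ?_, ?_⟩
    · rw [hg]
      exact fun h => hx1 h.symm
    · rw [hg]
      exact fun h => (Finset.disjoint_left.1 hdisj hxK) h
  · intro x hx
    rw [Finset.mem_filter, not_or] at hx
    exact hx.2.1

theorem odd_Y {H : SimpleGraph X} {S : Finset X} {C : Finset (Finset X)} (hC : OddClosed H S C)
    (g : X → X) (hg : ∀ x, g (g x) = x) (hgH : ∀ x, g x ≠ x → H.Adj x (g x))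
    {K : Finset X} (hK : K ∈ C) :
    Odd (K.filter (fun x => g x = x ∨ g x ∈ S)).card := by
  have h1 := closed_even (hC.disj K hK) (hC.closed K hK) g hg hgH
  have h2 := hC.odd K hK
  have h3 := Finset.card_filter_add_card_filter_not (s := K) (fun x => g x = x ∨ g x ∈ S)
  rw [← h3] at h2
  exact (Nat.odd_add.1 h2).2 h1

theorem exists_two_more {H : SimpleGraph X} {S : Finset X} {C : Finset (Finset X)}
    (hC : OddClosed H S C) (hX : Even (Fintype.card X)) (hlt : S.card < C.card) :
    ∃ C' : Finset (Finset X), OddClosed H S C' ∧ S.card + 2 ≤ C'.card ∧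
      Even (Finset.univ.filter (fun x => x ∉ S ∧ ∀ K ∈ C', x ∉ K)).card := by
  classical
  set R : Finset X := Finset.univ.filter (fun x => x ∉ S ∧ ∀ K ∈ C, x ∉ K) with hR
  have hUd : Disjoint S (C.biUnion id) := by
    rw [Finset.disjoint_left]
    intro x hx hx'
    rw [Finset.mem_biUnion] at hx'
    obtain ⟨K, hK, hxK⟩ := hx'
    exact Finset.disjoint_left.1 (hC.disj K hK) hxK hx
  have hRd : Disjoint (S ∪ C.biUnion id) R := by
    rw [Finset.disjoint_left]
    intro x hx hx'
    rw [hR, Finset.mem_filter] at hx'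
    rw [Finset.mem_union, Finset.mem_biUnion] at hx
    rcases hx with hx | ⟨K, hK, hxK⟩
    · exact hx'.2.1 hx
    · exact hx'.2.2 K hK hxK
  have hcov : (S ∪ C.biUnion id) ∪ R = Finset.univ := by
    ext x
    simp only [Finset.mem_union, Finset.mem_univ, iff_true, Finset.mem_biUnion, id_eq, hR,
      Finset.mem_filter, true_and]
    by_cases h1 : x ∈ S
    · exact Or.inl (Or.inl h1)
    · by_cases h2 : ∃ K ∈ C, x ∈ K
      · exact Or.inl (Or.inr h2)
      · exact Or.inr ⟨h1, fun K hK hxK => h2 ⟨K, hK, hxK⟩⟩
  have hcard : Fintype.card X = S.card + (C.biUnion id).card + R.card := by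
    rw [← Finset.card_univ, ← hcov, Finset.card_union_of_disjoint hRd,
      Finset.card_union_of_disjoint hUd]
  have hCc : (C.biUnion id).card = ∑ K ∈ C, K.card := by
    rw [Finset.card_biUnion]
    · rfl
    · intro K hK L hL hKL
      exact hC.pair K hK L hL hKL
  have hpar : (∑ K ∈ C, K.card) % 2 = C.card % 2 := by
    have h1 : ∀ D ⊆ C, (∑ K ∈ D, K.card) % 2 = D.card % 2 := by
      intro D
      induction D using Finset.induction_on with
      | empty => intro _; rfl
      | insert K D hKD ih =>
        intro hD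
        rw [Finset.sum_insert hKD, Finset.card_insert_of_notMem hKD]
        have h2 := ih (fun x hx => hD (Finset.mem_insert_of_mem hx))
        have h3 := hC.odd K (hD (Finset.mem_insert_self _ _))
        rw [Nat.odd_iff] at h3
        omega
    exact h1 C (Finset.Subset.refl _)
  rw [Nat.even_iff] at hX
  by_cases hRe : Even R.card
  · refine ⟨C, hC, ?_, hRe⟩
    rw [Nat.even_iff] at hRe
    omega
  · have hRo : Odd R.card := Nat.not_even_iff_odd.1 hRe
    have hRC : R ∉ C := by
      intro h
      have h1 : R.Nonempty := by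
        rw [← Finset.card_pos]
        rcases hRo with ⟨n, hn⟩
        omega
      obtain ⟨x, hx⟩ := h1
      have hx' := hx
      rw [hR, Finset.mem_filter] at hx'
      exact hx'.2.2 R h hx
    refine ⟨insert R C, ?_, ?_, ?_⟩
    · refine ⟨?_, ?_, ?_, ?_⟩
      · intro K hK
        rw [Finset.mem_insert] at hK
        rcases hK with rfl | hK
        · rw [Finset.disjoint_left]
          intro x hx
          rw [Finset.mem_filter] at hx
          exact hx.2.1
        · exact hC.disj K hK
      · intro K hK
        rw [Finset.mem_insert] at hK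
        rcases hK with rfl | hK
        · exact hRo
        · exact hC.odd K hK
      · intro K hK x hx y hxy hy
        rw [Finset.mem_insert] at hK
        rcases hK with rfl | hK
        · rw [Finset.mem_filter] at hx ⊢
          refine ⟨Finset.mem_univ _, hy, ?_⟩
          intro L hL hyL
          exact hx.2.2 L hL (hC.closed L hL y hyL x hxy.symm hx.2.1)
        · exact hC.closed K hK x hx y hxy hy
      · have hRL : ∀ L ∈ C, Disjoint R L := by
          intro L hL
          rw [Finset.disjoint_left]
          intro x hx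
          rw [hR, Finset.mem_filter] at hx
          exact hx.2.2 L hL
        intro K hK L hL hKL
        rw [Finset.mem_insert] at hK hL
        rcases hK with rfl | hK
        · rcases hL with rfl | hL
          · exact absurd rfl hKL
          · exact hRL L hL
        · rcases hL with rfl | hL
          · exact (hRL K hK).symm
          · exact hC.pair K hK L hL hKL
    · rw [Finset.card_insert_of_notMem hRC]
      omega
    · have h1 : Finset.univ.filter (fun x => x ∉ S ∧ ∀ K ∈ insert R C, x ∉ K) = ∅ := by
        rw [Finset.filter_eq_empty_iff]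
        rintro x _ ⟨hx1, hx2⟩
        apply hx2 R (Finset.mem_insert_self _ _)
        rw [hR, Finset.mem_filter]
        exact ⟨Finset.mem_univ _, hx1, fun K hK => hx2 K (Finset.mem_insert_of_mem hK)⟩
      rw [h1]
      simp

theorem even_R {H : SimpleGraph X} {S : Finset X} {C : Finset (Finset X)} (hC : OddClosed H S C)
    (g : X → X) (hg : ∀ x, g (g x) = x) (hgH : ∀ x, g x ≠ x → H.Adj x (g x))
    (hR : Even (Finset.univ.filter (fun x => x ∉ S ∧ ∀ K ∈ C, x ∉ K)).card) :
    Even (Finset.univ.filter (fun x => (x ∉ S ∧ ∀ K ∈ C, x ∉ K) ∧ (g x = x ∨ g x ∈ S))).card := by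
  classical
  set R : Finset X := Finset.univ.filter (fun x => x ∉ S ∧ ∀ K ∈ C, x ∉ K) with hRdef
  have h1 : Even (R.filter (fun x => ¬ (g x = x ∨ g x ∈ S))).card := by
    apply closed_even (H := H) _ _ g hg hgH
    · rw [Finset.disjoint_left]
      intro x hx
      rw [hRdef, Finset.mem_filter] at hx
      exact hx.2.1
    · intro x hx y hxy hy
      rw [hRdef, Finset.mem_filter] at hx ⊢
      refine ⟨Finset.mem_univ _, hy, ?_⟩
      intro L hL hyL
      exact hx.2.2 L hL (hC.closed L hL y hyL x hxy.symm hx.2.1)
  have h3 := Finset.card_filter_add_card_filter_not (s := R) (fun x => g x = x ∨ g x ∈ S)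
  have h4 : Finset.univ.filter (fun x => (x ∉ S ∧ ∀ K ∈ C, x ∉ K) ∧ (g x = x ∨ g x ∈ S)) =
      R.filter (fun x => g x = x ∨ g x ∈ S) := by
    rw [hRdef, Finset.filter_filter]
  rw [h4]
  rw [← h3] at hR
  exact (Nat.even_add.1 hR).2 h1

end Pool.Agent.TOKSP
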