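import Mathlib
import Pool.Agent.TOKSP.Defs
import Pool.Agent.TOKSP.Parity
import Pool.Agent.TOKSP.CountY
import Pool.Agent.TOKSP.Match

/-!
# Module PK7: from a Tutte violator to the obstruction

Take `C'` from `exists_two_more`.  All `inr i ∈ S` (two different members of `C'` would both contain it).
`Y = {x ∉ S | dFlip x = x ∨ dFlip x ∈ S}` is the disjoint union of the `K ∩ Y` (odd, so `≥ 1`) and `R ∩ Y` (even), and
`|Y| = |S| + 4 - 2 |Z| ≤ |C'| + 2 - 2 |Z|`.  So `∑_K (|K ∩ Y| - 1) + |R ∩ Y| ≤ 2 - 2 |Z|`: `|Z| ≤ 1`, and if `|Z| = 1` every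
`|K ∩ Y| = 1`, `R ∩ Y = ∅`; if `Z = ∅` at most one of the sets `K`, `R` has more than one `Y`-element, and then 3 (for `K`) resp. 2 (`R`).
`D` = the vertices outside `F` with both copies outside `S`; `c v` = the label of the surviving copy (`v ∉ Z ∪ D`);
`part v` = an injective code in `ℕ` of the set `K ∈ C'` or `R` (code 0) containing the surviving copies of `v` (both copies of
`v ∈ D` are adjacent, so in the same set).  `B` = the vertices of the `Y`-elements of the exceptional set (`∅` if there is none).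
-/

set_option autoImplicit false
set_option linter.unusedSectionVars false

namespace Pool.Agent.TOKSP

open Pool.Agent.TOKS

namespace ViolAux

section generic

variable {X : Type} [Fintype X] [DecidableEq X]

/-- the vertices outside `S` and the members of `C` -/
def rest (S : Finset X) (C : Finset (Finset X)) : Finset X :=
  Finset.univ.filter (fun x => x ∉ S ∧ ∀ K ∈ C, x ∉ K)

lemma mem_rest {S : Finset X} {C : Finset (Finset X)} {x : X} :
    x ∈ rest S C ↔ x ∉ S ∧ ∀ K ∈ C, x ∉ K := by simp [rest]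

open Classical in
/-- the class of `x` -/
noncomputable def cls (S : Finset X) (C : Finset (Finset X)) (x : X) : Finset X :=
  if h : ∃ K ∈ C, x ∈ K then h.choose else rest S C

variable {H : SimpleGraph X} {S : Finset X} {C : Finset (Finset X)}

lemma cls_of_mem (hC : OddClosed H S C) {K : Finset X} (hK : K ∈ C) {x : X} (hx : x ∈ K) :
    cls S C x = K := by
  have h : ∃ K ∈ C, x ∈ K := ⟨K, hK, hx⟩
  have h1 : cls S C x = h.choose := dif_pos h
  rw [h1]
  obtain ⟨h2, h3⟩ := h.choose_spec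
  by_contra hne
  exact (Finset.disjoint_left.1 (hC.pair _ h2 _ hK hne)) h3 hx

lemma cls_of_rest {x : X} (hx : x ∈ rest S C) : cls S C x = rest S C := by
  have h : ¬ ∃ K ∈ C, x ∈ K := by
    rintro ⟨K, hK, h⟩
    exact (mem_rest.1 hx).2 K hK h
  exact dif_neg h

lemma mem_cls (hC : OddClosed H S C) {x : X} (hx : x ∉ S) : x ∈ cls S C x := by
  by_cases h : ∃ K ∈ C, x ∈ K
  · obtain ⟨K, hK, h⟩ := h
    rw [cls_of_mem hC hK h]
    exact h
  · have h1 : x ∈ rest S C := mem_rest.2 ⟨hx, fun K hK h' => h ⟨K, hK, h'⟩⟩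
    rw [cls_of_rest h1]
    exact h1

lemma cls_mem (hC : OddClosed H S C) {x : X} (hx : x ∉ S) :
    cls S C x ∈ insert (rest S C) C := by
  by_cases h : ∃ K ∈ C, x ∈ K
  · obtain ⟨K, hK, h⟩ := h
    rw [cls_of_mem hC hK h]
    exact Finset.mem_insert_of_mem hK
  · have h1 : x ∈ rest S C := mem_rest.2 ⟨hx, fun K hK h' => h ⟨K, hK, h'⟩⟩
    rw [cls_of_rest h1]
    exact Finset.mem_insert_self _ _

lemma cls_adj (hC : OddClosed H S C) {x y : X} (hx : x ∉ S) (hy : y ∉ S) (h : H.Adj x y) :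
    cls S C x = cls S C y := by
  by_cases h1 : ∃ K ∈ C, x ∈ K
  · obtain ⟨K, hK, h1⟩ := h1
    rw [cls_of_mem hC hK h1, cls_of_mem hC hK (hC.closed K hK x h1 y h hy)]
  · have h2 : x ∈ rest S C := mem_rest.2 ⟨hx, fun K hK h' => h1 ⟨K, hK, h'⟩⟩
    have h3 : y ∈ rest S C := mem_rest.2 ⟨hy, fun K hK h' =>
      h1 ⟨K, hK, hC.closed K hK y h' x h.symm hx⟩⟩
    rw [cls_of_rest h2, cls_of_rest h3]

lemma rest_not_mem (hC : OddClosed H S C) : rest S C ∉ C := by
  intro h
  obtain ⟨x, hx⟩ : (rest S C).Nonempty := by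
    rw [← Finset.card_pos]
    exact (hC.odd _ h).pos
  exact (mem_rest.1 hx).2 _ h hx

/-- the number of `Y`-elements of a set -/
def yy (g : X → X) (S K : Finset X) : ℕ := (K.filter (fun x => g x = x ∨ g x ∈ S)).card

lemma count_Y (hC : OddClosed H S C) (g : X → X) :
    (Finset.univ.filter (fun x => x ∉ S ∧ (g x = x ∨ g x ∈ S))).card =
      (∑ K ∈ C, yy g S K) + yy g S (rest S C) := by
  have h1 : ∀ x ∈ Finset.univ.filter (fun x => x ∉ S ∧ (g x = x ∨ g x ∈ S)),
      cls S C x ∈ insert (rest S C) C := by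
    intro x hx
    exact cls_mem hC (Finset.mem_filter.1 hx).2.1
  rw [Finset.card_eq_sum_card_fiberwise h1, Finset.sum_insert (rest_not_mem hC), add_comm]
  congr 1
  · refine Finset.sum_congr rfl fun K hK => ?_
    unfold yy
    congr 1
    ext x
    simp only [Finset.mem_filter, Finset.mem_univ, true_and]
    constructor
    · rintro ⟨⟨h2, h3⟩, h4⟩
      refine ⟨?_, h3⟩
      rw [← h4]
      exact mem_cls hC h2
    · rintro ⟨h2, h3⟩
      exact ⟨⟨Finset.disjoint_left.1 (hC.disj K hK) h2, h3⟩, cls_of_mem hC hK h2⟩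
  · unfold yy
    congr 1
    ext x
    simp only [Finset.mem_filter, Finset.mem_univ, true_and]
    constructor
    · rintro ⟨⟨h2, h3⟩, h4⟩
      refine ⟨?_, h3⟩
      rw [← h4]
      exact mem_cls hC h2
    · rintro ⟨h2, h3⟩
      exact ⟨⟨(mem_rest.1 h2).1, h3⟩, cls_of_rest h2⟩

/-- the numerical consequences -/
lemma main_count {g : X → X} {z : ℕ} (hodd : ∀ K ∈ C, Odd (yy g S K))
    (h : (∑ K ∈ C, yy g S K) + yy g S (rest S C) + 2 * z ≤ C.card + 2) :
    z ≤ 1 ∧ ∀ K ∈ insert (rest S C) C, 2 ≤ yy g S K →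
      z = 0 ∧ yy g S K ≤ 3 ∧ ∀ L ∈ insert (rest S C) C, 2 ≤ yy g S L → L = K := by
  have hpos : ∀ K ∈ C, 1 ≤ yy g S K := fun K hK => (hodd K hK).pos
  have h0 : ∀ T : Finset (Finset X), T ⊆ C → T.card ≤ ∑ K ∈ T, yy g S K := by
    intro T hT
    have := Finset.card_nsmul_le_sum T (yy g S) 1 (fun K hK => hpos K (hT hK))
    simpa using this
  have h1 := h0 C (Finset.Subset.refl _)
  -- one member of `C`
  have h2 : ∀ K ∈ C, yy g S K + yy g S (rest S C) + 2 * z ≤ 3 := by
    intro K hK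
    have h3 := h0 (C.erase K) (Finset.erase_subset _ _)
    rw [Finset.card_erase_of_mem hK] at h3
    have h4 := Finset.add_sum_erase C (yy g S) hK
    have h5 : 0 < C.card := Finset.card_pos.2 ⟨K, hK⟩
    omega
  -- two members of `C`
  have h3 : ∀ K ∈ C, ∀ L ∈ C, L ≠ K → yy g S K + yy g S L ≤ 4 := by
    intro K hK L hL hne
    have hL' : L ∈ C.erase K := Finset.mem_erase.2 ⟨hne, hL⟩
    have h3 := h0 ((C.erase K).erase L)
      ((Finset.erase_subset _ _).trans (Finset.erase_subset _ _))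
    rw [Finset.card_erase_of_mem hL', Finset.card_erase_of_mem hK] at h3
    have h4 := Finset.add_sum_erase C (yy g S) hK
    have h4' := Finset.add_sum_erase (C.erase K) (yy g S) hL'
    have h5 : 0 < (C.erase K).card := Finset.card_pos.2 ⟨L, hL'⟩
    rw [Finset.card_erase_of_mem hK] at h5
    omega
  have h4 : ∀ K ∈ C, 2 ≤ yy g S K → 3 ≤ yy g S K := by
    intro K hK h5
    obtain ⟨m, hm⟩ := hodd K hK
    omega
  refine ⟨by omega, fun K hK h5 => ?_⟩
  rcases Finset.mem_insert.1 hK with rfl | hK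
  · refine ⟨by omega, by omega, fun L hL h6 => ?_⟩
    rcases Finset.mem_insert.1 hL with rfl | hL
    · rfl
    · exfalso
      have := h2 L hL
      have := h4 L hL h6
      omega
  · have h6 := h2 K hK
    have h7 := h4 K hK h5
    refine ⟨by omega, by omega, fun L hL h8 => ?_⟩
    rcases Finset.mem_insert.1 hL with rfl | hL
    · exfalso
      omega
    · by_contra hne
      have h9 := h3 K hK L hL hne
      have h10 := h4 L hL h8
      omega

end generic

section concrete

variable {V : Type} [Fintype V] [DecidableEq V] {F : Finset V} {κ : V → Bool} {k : ℕ}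

/-- the label of the surviving copy -/
def lab (S : Finset (DX F κ k)) (v : V) : Bool :=
  if h : v ∈ F then κ v else
    if (cp v true (fun h' => absurd h' h) : DX F κ k) ∉ S then true else false

lemma lab_ok (S : Finset (DX F κ k)) (v : V) (h : v ∈ F) : lab S v = κ v := by
  unfold lab
  rw [dif_pos h]

/-- the surviving copy -/
def rep (S : Finset (DX F κ k)) (v : V) : DX F κ k := cp v (lab S v) (lab_ok S v)

/-- the vertices outside `F` with two surviving copies -/
def DD (S : Finset (DX F κ k)) : Finset V :=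
  Finset.univ.filter (fun v => v ∉ F ∧ ∀ i : Bool, ∀ hi : v ∈ F → i = κ v,
    (cp v i hi : DX F κ k) ∉ S)

lemma mem_ZZ {S : Finset (DX F κ k)} {v : V} :
    v ∈ ZZ S ↔ ∀ i : Bool, ∀ hi : v ∈ F → i = κ v, (cp v i hi : DX F κ k) ∈ S := by
  simp [ZZ]

lemma mem_DD {S : Finset (DX F κ k)} {v : V} :
    v ∈ DD S ↔ v ∉ F ∧ ∀ i : Bool, ∀ hi : v ∈ F → i = κ v, (cp v i hi : DX F κ k) ∉ S := by
  simp [DD]

lemma cp_inj {u v : V} {i j : Bool} {hi : u ∈ F → i = κ u} {hj : v ∈ F → j = κ v}
    (h : (cp u i hi : DX F κ k) = cp v j hj) : u = v ∧ i = j := by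
  unfold cp at h
  have h1 := Subtype.ext_iff.1 (Sum.inl_injective h)
  exact Prod.ext_iff.1 h1

lemma rep_not_mem {S : Finset (DX F κ k)} {v : V} (hv : v ∉ ZZ S) : rep S v ∉ S := by
  rw [mem_ZZ] at hv
  push Not at hv
  obtain ⟨i, hi, h⟩ := hv
  by_cases hF : v ∈ F
  · have h1 : lab S v = i := by rw [lab_ok S v hF, hi hF]
    subst h1
    exact h
  · by_cases h2 : (cp v true (fun h' => absurd h' hF) : DX F κ k) ∉ S
    · have h1 : lab S v = true := by
        unfold lab
        rw [dif_neg hF, if_pos h2]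
      intro h3
      apply h2
      have h4 : rep S v = cp v true (fun h' => absurd h' hF) := by
        unfold rep cp
        congr 3
      rw [← h4]
      exact h3
    · have h1 : lab S v = false := by
        unfold lab
        rw [dif_neg hF, if_neg h2]
      have h5 : i = false := by
        by_contra h6
        have h7 : i = true := by simpa using h6
        subst h7
        exact h2 h
      intro h3
      apply h
      have h4 : rep S v = cp v i hi := by
        unfold rep cp
        congr 3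
        rw [h1, h5]
      rw [← h4]
      exact h3

lemma adj_copies (G : SimpleGraph V) {v : V} {i j : Bool} {hi : v ∈ F → i = κ v}
    {hj : v ∈ F → j = κ v} (h : i ≠ j) :
    (dGraph G F κ k).Adj (cp v i hi) (cp v j hj) := Or.inr ⟨rfl, h⟩

lemma adj_same (G : SimpleGraph V) {u v : V} {i : Bool} {hi : u ∈ F → i = κ u}
    {hj : v ∈ F → i = κ v} (h : G.Adj u v) :
    (dGraph G F κ k).Adj (cp u i hi) (cp v i hj) := Or.inl ⟨h, rfl⟩

variable {G : SimpleGraph V} {S : Finset (DX F κ k)} {C : Finset (Finset (DX F κ k))}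

lemma cls_rep (hC : OddClosed (dGraph G F κ k) S C) {v : V} {i : Bool} {hi : v ∈ F → i = κ v}
    (h : (cp v i hi : DX F κ k) ∉ S) : cls S C (cp v i hi) = cls S C (rep S v) := by
  have hv : v ∉ ZZ S := fun h' => h (mem_ZZ.1 h' i hi)
  by_cases h1 : i = lab S v
  · have h2 : (cp v i hi : DX F κ k) = rep S v := by
      unfold rep cp
      congr 3
    rw [h2]
  · exact cls_adj hC h (rep_not_mem hv) (adj_copies G h1)

lemma dFlip_cp {v : V} {i : Bool} {hi : v ∈ F → i = κ v} (hF : v ∉ F) :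
    dFlip (cp v i hi : DX F κ k) = cp v (!i) (fun h => absurd h hF) := by
  unfold dFlip cp
  simp only
  rw [dif_neg hF]

lemma dFlip_cp_F {v : V} {i : Bool} {hi : v ∈ F → i = κ v} (hF : v ∈ F) :
    dFlip (cp v i hi : DX F κ k) = cp v i hi := by
  unfold dFlip cp
  simp only
  rw [dif_pos hF]

lemma dFlip_ne {x : DX F κ k} (h : dFlip x ≠ x) : (dGraph G F κ k).Adj x (dFlip x) := by
  rcases x with ⟨⟨v, i⟩, hi⟩ | j
  · by_cases hF : v ∈ F
    · exact absurd (dFlip_cp_F (hi := hi) hF) h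
    · have h1 := dFlip_cp (k := k) (hi := hi) hF
      have h2 : (Sum.inl ⟨(v, i), hi⟩ : DX F κ k) = cp v i hi := rfl
      rw [h2, h1]
      exact adj_copies G (by simp)
  · exact absurd rfl h

lemma rep_Y {v : V} (hZ : v ∉ ZZ S) (hD : v ∉ DD S) :
    dFlip (rep S v) = rep S v ∨ dFlip (rep S v) ∈ S := by
  by_cases hF : v ∈ F
  · exact Or.inl (dFlip_cp_F hF)
  · right
    unfold rep
    rw [dFlip_cp hF]
    by_contra h
    apply hD
    rw [mem_DD]
    refine ⟨hF, fun i hi => ?_⟩
    by_cases h1 : i = lab S v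
    · have h2 : (cp v i hi : DX F κ k) = rep S v := by
        unfold rep cp
        congr 3
      rw [h2]
      exact rep_not_mem hZ
    · have h2 : i = !lab S v := by
        cases i <;> cases h3 : lab S v <;> simp_all
      have h4 : (cp v i hi : DX F κ k) = cp v (!lab S v) (fun h => absurd h hF) := by
        unfold cp
        congr 3
      rw [h4]
      exact h

lemma inr_mem (hC : OddClosed (dGraph G F κ k) S C) (h2 : S.card + 2 ≤ C.card) (i : Fin k) :
    (Sum.inr i : DX F κ k) ∈ S := by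
  by_contra hi
  have h1 : ∀ K ∈ C, (Sum.inr i : DX F κ k) ∈ K := by
    intro K hK
    by_contra h3
    obtain ⟨x, hx⟩ : K.Nonempty := by
      rw [← Finset.card_pos]
      exact (hC.odd _ hK).pos
    apply h3
    refine hC.closed K hK x hx _ ?_ hi
    rcases x with p | j
    · trivial
    · show j ≠ i
      rintro rfl
      exact h3 hx
  have h4 : 1 < C.card := by omega
  obtain ⟨K, hK, L, hL, hne⟩ := Finset.one_lt_card.1 h4
  exact Finset.disjoint_left.1 (hC.pair K hK L hL hne) (h1 K hK) (h1 L hL)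

end concrete

end ViolAux

variable {V : Type} [Fintype V] [DecidableEq V]

theorem obstr_of_violator (G : SimpleGraph V) {F : Finset V} {κ : V → Bool} {k : ℕ}
    (hk : F.card = k + 4) {S : Finset (DX F κ k)} {C : Finset (Finset (DX F κ k))}
    (hC : OddClosed (dGraph G F κ k) S C) (hlt : S.card < C.card) :
    ∃ (Z D B : Finset V) (c : V → Bool) (part : V → ℕ), Obstr G F κ Z D B c part := by
  obtain ⟨C', hC', h2, -⟩ := exists_two_more hC (even_card_DX hk) hlt
  have hinr := ViolAux.inr_mem hC' h2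
  have hY := card_Y S hk hinr
  rw [ViolAux.count_Y hC' dFlip] at hY
  have hodd : ∀ K ∈ C', Odd (ViolAux.yy dFlip S K) := fun K hK =>
    odd_Y hC' dFlip dFlip_dFlip (fun x hx => ViolAux.dFlip_ne hx) hK
  obtain ⟨hz, hmain⟩ := ViolAux.main_count (g := dFlip) (z := (ZZ S).card) hodd (by omega)
  -- the data
  obtain ⟨part, hpart⟩ : ∃ part : V → ℕ, ∀ u v, part u = part v ↔
      ViolAux.cls S C' (ViolAux.rep S u) = ViolAux.cls S C' (ViolAux.rep S v) := by
    refine ⟨fun v => (Fintype.equivFin (Finset (DX F κ k))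
      (ViolAux.cls S C' (ViolAux.rep S v))).val, fun u v => ?_⟩
    constructor
    · intro h
      exact (Fintype.equivFin (Finset (DX F κ k))).injective (Fin.ext h)
    · intro h
      simp only [h]
  obtain ⟨B, hB⟩ : ∃ B : Finset V, ∀ v, v ∈ B ↔ v ∉ ZZ S ∧ v ∉ ViolAux.DD S ∧
      ∃ u, u ≠ v ∧ u ∉ ZZ S ∧ u ∉ ViolAux.DD S ∧ part u = part v := by
    refine ⟨Finset.univ.filter (fun v => v ∉ ZZ S ∧ v ∉ ViolAux.DD S ∧
      ∃ u, u ≠ v ∧ u ∉ ZZ S ∧ u ∉ ViolAux.DD S ∧ part u = part v), fun v => ?_⟩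
    simp
  -- the surviving copy of a coloured vertex is a `Y`-element of its class
  have hrep : ∀ v, v ∉ ZZ S → v ∉ ViolAux.DD S → ∀ K, ViolAux.cls S C' (ViolAux.rep S v) = K →
      ViolAux.rep S v ∈ K.filter (fun x => dFlip x = x ∨ dFlip x ∈ S) := by
    intro v hv hv' K hK
    rw [Finset.mem_filter]
    refine ⟨?_, ViolAux.rep_Y hv hv'⟩
    rw [← hK]
    exact ViolAux.mem_cls hC' (ViolAux.rep_not_mem hv)
  have hrinj : ∀ u v, ViolAux.rep S u = ViolAux.rep S v → u = v := fun u v h =>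
    (ViolAux.cp_inj h).1
  -- the class of an element of `B` is heavy
  have hheavy : ∀ v ∈ B, 2 ≤ ViolAux.yy dFlip S (ViolAux.cls S C' (ViolAux.rep S v)) := by
    intro v hv
    obtain ⟨h3, h4, u, h5, h6, h7, h8⟩ := (hB v).1 hv
    rw [hpart] at h8
    have h9 : 1 < ((ViolAux.cls S C' (ViolAux.rep S v)).filter
        (fun x => dFlip x = x ∨ dFlip x ∈ S)).card := by
      rw [Finset.one_lt_card]
      exact ⟨_, hrep u h6 h7 _ h8, _, hrep v h3 h4 _ rfl, fun h => h5 (hrinj _ _ h)⟩
    exact h9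
  have hclsmem : ∀ v ∈ B, ViolAux.cls S C' (ViolAux.rep S v) ∈ insert (ViolAux.rest S C') C' :=
    fun v hv => ViolAux.cls_mem hC' (ViolAux.rep_not_mem ((hB v).1 hv).1)
  have hbpart : ∀ u ∈ B, ∀ v ∈ B, ViolAux.cls S C' (ViolAux.rep S u) =
      ViolAux.cls S C' (ViolAux.rep S v) := by
    intro u hu v hv
    exact (hmain _ (hclsmem v hv) (hheavy v hv)).2.2 _ (hclsmem u hu) (hheavy u hu)
  refine ⟨ZZ S, ViolAux.DD S, B, ViolAux.lab S, part, ?_⟩
  refine ⟨hz, ?_, ?_, ?_, ?_, ?_, ?_, ?_, ?_, ?_, ?_⟩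
  · -- zB
    intro hZ
    rw [Finset.eq_empty_iff_forall_notMem]
    intro v hv
    have h3 := (hmain _ (hclsmem v hv) (hheavy v hv)).1
    rw [Finset.card_eq_zero] at h3
    rw [h3] at hZ
    exact Finset.not_nonempty_empty hZ
  · -- bcard
    rcases B.eq_empty_or_nonempty with h3 | ⟨v, hv⟩
    · rw [h3]
      simp
    · refine le_trans ?_ (hmain _ (hclsmem v hv) (hheavy v hv)).2.1
      refine Finset.card_le_card_of_injOn (ViolAux.rep S) (fun u hu => ?_)
        (fun a _ b _ h => hrinj a b h)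
      exact hrep u ((hB u).1 hu).1 ((hB u).1 hu).2.1 _ (hbpart u hu v hv)
  · -- dF
    rw [Finset.disjoint_left]
    intro v hv
    exact (ViolAux.mem_DD.1 hv).1
  · -- dZ
    rw [Finset.disjoint_left]
    intro v hv hv'
    obtain ⟨h3, h4⟩ := ViolAux.mem_DD.1 hv
    exact h4 true (fun h => absurd h h3) (ViolAux.mem_ZZ.1 hv' true (fun h => absurd h h3))
  · -- bZ
    rw [Finset.disjoint_left]
    intro v hv
    exact ((hB v).1 hv).1
  · -- bD
    rw [Finset.disjoint_left]
    intro v hv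
    exact ((hB v).1 hv).2.1
  · -- bpart
    intro u hu v hv
    rw [hpart]
    exact hbpart u hu v hv
  · -- col
    intro v hv _
    exact ViolAux.lab_ok S v hv
  · -- adj
    intro u v huv hu hv h3
    rw [hpart]
    have key : ∀ u v : V, G.Adj u v → v ∉ ZZ S → u ∈ ViolAux.DD S →
        ViolAux.cls S C' (ViolAux.rep S u) = ViolAux.cls S C' (ViolAux.rep S v) := by
      intro u v huv hv hu
      obtain ⟨h4, h5⟩ := ViolAux.mem_DD.1 hu
      have h6 := h5 (ViolAux.lab S v) (fun h => absurd h h4)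
      rw [← ViolAux.cls_rep hC' h6]
      exact ViolAux.cls_adj hC' h6 (ViolAux.rep_not_mem hv) (ViolAux.adj_same G huv)
    rcases h3 with h3 | h3 | h3
    · exact key u v huv hv h3
    · exact (key v u huv.symm hu h3).symm
    · refine ViolAux.cls_adj hC' (ViolAux.rep_not_mem hu) (ViolAux.rep_not_mem hv) ?_
      exact Or.inl ⟨huv, h3⟩
  · -- inj
    intro u v huv hu hv hu' hv' h3
    rw [hB, hB]
    exact ⟨⟨hu, hu', v, fun h => huv h.symm, hv, hv', h3.symm⟩, hv, hv', u, huv, hu, hu', h3⟩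

/-- The packing theorem for two disjoint inconsistent paths. -/
theorem pack2 (G : SimpleGraph V) {F : Finset V} {κ : V → Bool} (hF : 4 ≤ F.card)
    (hno : ¬ TwoIncons G F κ) :
    ∃ (Z D B : Finset V) (c : V → Bool) (part : V → ℕ), Obstr G F κ Z D B c part := by
  have h1 : ¬ ∃ f : DX F κ (F.card - 4) → DX F κ (F.card - 4), (∀ x, f (f x) = x) ∧
      ∀ x, (dGraph G F κ (F.card - 4)).Adj x (f x) := by
    rintro ⟨f, hf, hadj⟩
    exact hno (twoIncons_of_matching G hF f hf hadj)
  obtain ⟨S, C, hC, hlt⟩ := tutte_form _ h1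
  exact obstr_of_violator G (by omega) hC hlt

end Pool.Agent.TOKSP
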