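import Mathlib
import Pool.Agent.TOKSP.Viol

/-!
# Module PK8: no two disjoint odd `A`-paths outside the independent set `W`

Apply `pack2` to `G0` (the edges of `G` without ends in `W`), `F = A`, `κ = false`; a `G0`-path between different vertices of `A`
avoids `W` (`Walk.map` / `Walk.mapLe` to `G`).
`D ⊆ W`: for `v0 ∈ D \ W` let `Δ = {v ∈ D \ W | part v = part v0}`; a `G`-neighbour `u ∉ Δ` of `v ∈ Δ` is not in `W` (`v ∉ A`), so it is in
`Z` or a coloured vertex of the same part; `inj`: at most one of those, or all in `B`; so at most 3 neighbours, against `h4`.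
Colour `W` with `true`: every edge of `G - Z` with equally coloured ends has both ends in `B`.  An odd closed walk avoiding
`Z` has such an edge (parity of a walk all of whose edges are bichromatic).  Two disjoint odd cycles: `Z ≠ ∅`: both contain `z`;
`Z = ∅`: each contains two vertices of `B`, `|B| ≤ 3`.
-/

set_option autoImplicit false
set_option linter.unusedSectionVars false

namespace Pool.Agent.TOKSP

variable {V : Type} [Fintype V] [DecidableEq V]

/-- two disjoint odd `A`-paths outside `W` -/
def TwoOddAPaths (G : SimpleGraph V) (W A : Finset V) : Prop :=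
  ∃ (a b c d : V) (p : G.Walk a b) (q : G.Walk c d),
    a ∈ A ∧ b ∈ A ∧ c ∈ A ∧ d ∈ A ∧ p.IsPath ∧ q.IsPath ∧ Odd p.length ∧ Odd q.length ∧
    (∀ x ∈ p.support, x ∉ q.support) ∧
    (∀ x ∈ p.support, x ∉ W) ∧ (∀ x ∈ q.support, x ∉ W) ∧
    (∀ x ∈ p.support, x ∈ A → x = a ∨ x = b) ∧ (∀ x ∈ q.support, x ∈ A → x = c ∨ x = d)

namespace EndingAux

/-- the edges of `G` without ends in `W` -/
def G0 (G : SimpleGraph V) (W : Finset V) : SimpleGraph V where
  Adj := fun u v => G.Adj u v ∧ u ∉ W ∧ v ∉ W
  symm := by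
    constructor
    rintro u v ⟨h1, h2, h3⟩
    exact ⟨h1.symm, h3, h2⟩
  loopless := by
    constructor
    rintro u ⟨h1, _, _⟩
    exact G.loopless.irrefl _ h1

theorem G0_le (G : SimpleGraph V) (W : Finset V) : G0 G W ≤ G := fun _ _ h => h.1

theorem avoid {G : SimpleGraph V} {W : Finset V} {u v : V} (p : (G0 G W).Walk u v) (hu : u ∉ W) :
    ∀ x ∈ p.support, x ∉ W := by
  induction p with
  | nil =>
    intro x hx
    rw [SimpleGraph.Walk.support_nil, List.mem_singleton] at hx
    rw [hx]
    exact hu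
  | cons h p ih =>
    intro x hx
    rw [SimpleGraph.Walk.support_cons, List.mem_cons] at hx
    rcases hx with rfl | hx
    · exact hu
    · exact ih h.2.2 x hx

theorem toTwo {G : SimpleGraph V} {W A : Finset V} (hWA : Disjoint W A)
    (h : TwoIncons (G0 G W) A (fun _ => false)) : TwoOddAPaths G W A := by
  obtain ⟨a, b, c, d, p, q, ha, hb, hc, hd, hab, hcd, hp, hq, hop, hoq, hdis, hp1, hq1⟩ := h
  have hnW : ∀ x ∈ A, x ∉ W := fun x hx hx' => (Finset.disjoint_left.1 hWA hx' hx)
  refine ⟨a, b, c, d, p.mapLe (G0_le G W), q.mapLe (G0_le G W), ha, hb, hc, hd,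
    hp.mapLe (G0_le G W), hq.mapLe (G0_le G W), ?_, ?_, ?_, ?_, ?_, ?_, ?_⟩
  · rw [SimpleGraph.Walk.mapLe, SimpleGraph.Walk.length_map]
    exact hop.2 rfl
  · rw [SimpleGraph.Walk.mapLe, SimpleGraph.Walk.length_map]
    exact hoq.2 rfl
  · simpa using hdis
  · simpa using avoid p (hnW a ha)
  · simpa using avoid q (hnW c hc)
  · simpa using hp1
  · simpa using hq1

theorem bichrom {G : SimpleGraph V} (f : V → Bool) {u v : V} (p : G.Walk u v)
    (h : ∀ x y, G.Adj x y → x ∈ p.support → y ∈ p.support → f x ≠ f y) :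
    Even p.length ↔ f u = f v := by
  induction p with
  | nil => simp
  | cons hadj p ih =>
    have h1 := ih fun x y hxy hx hy => h x y hxy (by
      rw [SimpleGraph.Walk.support_cons]
      exact List.mem_cons_of_mem _ hx) (by
      rw [SimpleGraph.Walk.support_cons]
      exact List.mem_cons_of_mem _ hy)
    have h2 := h _ _ hadj (by
      rw [SimpleGraph.Walk.support_cons]
      exact List.mem_cons_self) (by
      rw [SimpleGraph.Walk.support_cons]
      exact List.mem_cons_of_mem _ p.start_mem_support)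
    rw [SimpleGraph.Walk.length_cons, Nat.even_add_one, h1]
    revert h2
    generalize f _ = a
    generalize f _ = b
    generalize f _ = c
    revert a b c
    decide

/-- an odd closed walk has two adjacent vertices of the same colour -/
theorem mono {G : SimpleGraph V} (f : V → Bool) {u : V} (p : G.Walk u u) (hp : Odd p.length) :
    ∃ x y, G.Adj x y ∧ x ∈ p.support ∧ y ∈ p.support ∧ f x = f y := by
  by_contra hne
  push Not at hne
  have h1 := (bichrom f p hne).2 rfl
  exact (Nat.not_odd_iff_even.2 h1) hp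

theorem D_sub {G : SimpleGraph V} {W A Z D B : Finset V} {κ c : V → Bool} {part : V → ℕ}
    (hW : ∀ w ∈ W, ∀ v, G.Adj w v → v ∈ A)
    (h4 : ∀ X : Finset V, X.Nonempty → Disjoint X W → Disjoint X A →
      ∀ S : Finset V, (∀ x ∈ X, ∀ v, G.Adj x v → v ∉ X → v ∈ S) → 4 ≤ S.card)
    (H : Obstr (G0 G W) A κ Z D B c part) : ∀ v ∈ D, v ∈ W := by
  classical
  by_contra hne
  push Not at hne
  obtain ⟨v0, hv0, hv0W⟩ := hne
  set Δ : Finset V := D.filter (fun v => v ∉ W ∧ part v = part v0) with hΔ
  set N : Finset V := Finset.univ.filter (fun v => v ∉ Δ ∧ ∃ x ∈ Δ, G.Adj x v) with hN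
  have h1 := h4 Δ ⟨v0, Finset.mem_filter.2 ⟨hv0, hv0W, rfl⟩⟩
    (Finset.disjoint_left.2 fun x hx hx' => (Finset.mem_filter.1 hx).2.1 hx')
    (Finset.disjoint_left.2 fun x hx hx' =>
      (Finset.disjoint_left.1 H.dF (Finset.mem_filter.1 hx).1 hx')) N
    (fun x hx v hv hvΔ => Finset.mem_filter.2 ⟨Finset.mem_univ _, hvΔ, x, hx, hv⟩)
  have key : ∀ u ∈ N, u ∉ Z → u ∉ D ∧ part u = part v0 := by
    intro u hu huZ
    obtain ⟨-, huΔ, x, hx, hxu⟩ := Finset.mem_filter.1 hu
    obtain ⟨hxD, hxW, hxp⟩ := Finset.mem_filter.1 hx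
    have huW : u ∉ W := fun h => Finset.disjoint_left.1 H.dF hxD (hW u h x hxu.symm)
    have hadj : (G0 G W).Adj x u := ⟨hxu, hxW, huW⟩
    have hp := H.adj x u hadj (Finset.disjoint_left.1 H.dZ hxD) huZ (Or.inl hxD)
    refine ⟨fun huD => huΔ (Finset.mem_filter.2 ⟨huD, huW, ?_⟩), ?_⟩
    · rw [← hp, hxp]
    · rw [← hp, hxp]
  have h2 : (N \ Z).card ≤ 1 ∨ N \ Z ⊆ B := by
    by_cases hc : (N \ Z).card ≤ 1
    · exact Or.inl hc
    · right
      intro u hu
      obtain ⟨w, hw, hwu⟩ := Finset.exists_mem_ne (by omega : 1 < (N \ Z).card) u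
      obtain ⟨hu1, hu2⟩ := Finset.mem_sdiff.1 hu
      obtain ⟨hw1, hw2⟩ := Finset.mem_sdiff.1 hw
      obtain ⟨hu3, hu4⟩ := key u hu1 hu2
      obtain ⟨hw3, hw4⟩ := key w hw1 hw2
      exact (H.inj u w hwu.symm hu2 hw2 hu3 hw3 (by rw [hu4, hw4])).1
  have h3 : N.card ≤ (N \ Z).card + Z.card := by
    have := Finset.card_le_card_sdiff_add_card (s := N) (t := Z)
    omega
  have hz := H.zcard
  have hb := H.bcard
  rcases Z.eq_empty_or_nonempty with h0 | h0
  · rw [h0, Finset.card_empty] at h3
    rcases h2 with h2 | h2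
    · rw [h0] at h2
      omega
    · have := Finset.card_le_card h2
      rw [h0] at this
      omega
  · have hB := H.zB h0
    rcases h2 with h2 | h2
    · omega
    · have := Finset.card_le_card h2
      rw [hB, Finset.card_empty] at this
      omega

end EndingAux

open EndingAux in
theorem ending (G : SimpleGraph V) {W A : Finset V} (hWA : Disjoint W A)
    (hW : ∀ w ∈ W, ∀ v, G.Adj w v → v ∈ A) (hA : 4 ≤ A.card)
    (h4 : ∀ X : Finset V, X.Nonempty → Disjoint X W → Disjoint X A →
      ∀ S : Finset V, (∀ x ∈ X, ∀ v, G.Adj x v → v ∉ X → v ∈ S) → 4 ≤ S.card)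
    (hno : ¬ TwoOddAPaths G W A) {u v : V} (c : G.Walk u u) (d : G.Walk v v)
    (hc : Odd c.length) (hd : Odd d.length) : ∃ x ∈ c.support, x ∈ d.support := by
  classical
  obtain ⟨Z, D, B, col, part, H⟩ :=
    pack2 (G0 G W) (F := A) (κ := fun _ => false) hA (fun h => hno (toTwo hWA h))
  have hD := D_sub hW h4 H
  set f : V → Bool := fun v => if v ∈ W then true else col v with hf
  have hnW : ∀ x ∈ A, x ∉ W := fun x hx hx' => (Finset.disjoint_left.1 hWA hx' hx)
  have key : ∀ x y, G.Adj x y → x ∉ Z → y ∉ Z → f x = f y → x ∈ B ∧ y ∈ B := by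
    intro x y hxy hx hy hfxy
    by_cases hxW : x ∈ W
    · have h1 := hW x hxW y hxy
      have h2 : f x = true := by rw [hf]; exact if_pos hxW
      have h3 : f y = false := by
        rw [hf]
        simp only [if_neg (hnW y h1)]
        exact H.col y h1 hy
      rw [h2, h3] at hfxy
      exact absurd hfxy (by decide)
    · by_cases hyW : y ∈ W
      · have h1 := hW y hyW x hxy.symm
        have h2 : f y = true := by rw [hf]; exact if_pos hyW
        have h3 : f x = false := by
          rw [hf]
          simp only [if_neg (hnW x h1)]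
          exact H.col x h1 hx
        rw [h2, h3] at hfxy
        exact absurd hfxy (by decide)
      · have h1 : f x = col x := by rw [hf]; exact if_neg hxW
        have h2 : f y = col y := by rw [hf]; exact if_neg hyW
        rw [h1, h2] at hfxy
        have hadj : (G0 G W).Adj x y := ⟨hxy, hxW, hyW⟩
        exact H.inj x y hxy.ne hx hy (fun h => hxW (hD x h)) (fun h => hyW (hD y h))
          (H.adj x y hadj hx hy (Or.inr (Or.inr hfxy)))
  by_contra hne
  push Not at hne
  obtain ⟨x, y, hxy, hx, hy, hfx⟩ := mono f c hc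
  obtain ⟨x', y', hxy', hx', hy', hfx'⟩ := mono f d hd
  rcases Z.eq_empty_or_nonempty with h0 | h0
  · have h1 := key x y hxy (by rw [h0]; simp) (by rw [h0]; simp) hfx
    have h2 := key x' y' hxy' (by rw [h0]; simp) (by rw [h0]; simp) hfx'
    have h3 : ({x, y, x', y'} : Finset V) ⊆ B := by
      intro w hw
      simp only [Finset.mem_insert, Finset.mem_singleton] at hw
      rcases hw with rfl | rfl | rfl | rfl
      · exact h1.1
      · exact h1.2
      · exact h2.1
      · exact h2.2
    have h4' : ({x, y, x', y'} : Finset V).card = 4 := by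
      have e1 : x ≠ x' := fun h => hne x hx (h ▸ hx')
      have e2 : x ≠ y' := fun h => hne x hx (h ▸ hy')
      have e3 : y ≠ x' := fun h => hne y hy (h ▸ hx')
      have e4 : y ≠ y' := fun h => hne y hy (h ▸ hy')
      have e5 := hxy.ne
      have e6 := hxy'.ne
      rw [Finset.card_insert_of_notMem, Finset.card_insert_of_notMem,
        Finset.card_insert_of_notMem, Finset.card_singleton]
      · simpa using e6
      · simpa using ⟨e3, e4⟩
      · simpa using ⟨e5, e1, e2⟩
    have h5 := Finset.card_le_card h3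
    have h6 := H.bcard
    omega
  · have hB := H.zB h0
    obtain ⟨z, hz⟩ := Finset.card_eq_one.1
      (le_antisymm H.zcard (Finset.card_pos.2 h0))
    have hmem : ∀ {w : V} (e : G.Walk w w), Odd e.length → z ∈ e.support := by
      intro w e he
      by_contra hz'
      obtain ⟨x, y, hxy, hx, hy, hfx⟩ := mono f e he
      have h1 := key x y hxy (by
        rw [hz, Finset.mem_singleton]
        rintro rfl
        exact hz' hx) (by
        rw [hz, Finset.mem_singleton]
        rintro rfl
        exact hz' hy) hfx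
      rw [hB] at h1
      exact absurd h1.1 (Finset.notMem_empty _)
    exact hne z (hmem c hc) (hmem d hd)

end Pool.Agent.TOKSP
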