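import Mathlib
import Pool.Agent.TOKSP.Ending
import Pool.Agent.TOKST.Final

/-!
# A 4-connected graph with two disjoint odd cycles and an independent set of surplus at most two

`G` 4-connected, two disjoint odd cycles, `I ≠ ∅` independent with `|N(I)| ≤ |I| + 2`: totally odd `K₄`-subdivision.
-/

set_option autoImplicit false
set_option linter.unusedSectionVars false

namespace Pool.Agent.TOKSP

open Pool.Agent.TOKST (HasTOKS final5)

variable {V : Type} [Fintype V] [DecidableEq V]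

/-- the neighbourhood of a set, outside the set -/
noncomputable def nbh (G : SimpleGraph V) (X : Finset V) : Finset V :=
  by classical exact Finset.univ.filter (fun v => v ∉ X ∧ ∃ x ∈ X, G.Adj x v)

theorem mem_nbh {G : SimpleGraph V} {X : Finset V} {v : V} :
    v ∈ nbh G X ↔ v ∉ X ∧ ∃ x ∈ X, G.Adj x v := by
  classical
  unfold nbh
  simp

/-- in a 4-connected graph, a set `X` separated from some vertex has at least 4 neighbours -/
theorem four_le_nbh (G : SimpleGraph V)
    (h4 : ∀ S : Finset V, S.card ≤ 3 → (G.induce ((↑S : Set V)ᶜ)).Connected)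
    {X : Finset V} (hX : X.Nonempty) {w : V} (hwX : w ∉ X) (hw : w ∉ nbh G X) :
    4 ≤ (nbh G X).card := by
  classical
  by_contra hlt
  have hc := h4 (nbh G X) (by omega)
  obtain ⟨x, hx⟩ := hX
  have hxS : x ∈ ((↑(nbh G X) : Set V)ᶜ) := by
    intro h
    exact (mem_nbh.1 (Finset.mem_coe.1 h)).1 hx
  have hwS : w ∈ ((↑(nbh G X) : Set V)ᶜ) := fun h => hw (Finset.mem_coe.1 h)
  obtain ⟨p⟩ := hc.preconnected ⟨x, hxS⟩ ⟨w, hwS⟩
  have key : ∀ (a b : ((↑(nbh G X) : Set V)ᶜ : Set V))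
      (q : (G.induce ((↑(nbh G X) : Set V)ᶜ)).Walk a b), a.1 ∈ X → b.1 ∈ X := by
    intro a b q
    induction q with
    | nil => exact fun h => h
    | cons hadj q ih =>
      intro ha
      apply ih
      rename_i u v w'
      by_contra hv
      have h1 : v.1 ∈ nbh G X := mem_nbh.2 ⟨hv, u.1, ha, hadj⟩
      exact v.2 (Finset.mem_coe.2 h1)
  exact hwX (key _ _ p hx)

theorem toks_of_surplus_two (G : SimpleGraph V) (hn : 5 ≤ Fintype.card V)
    (h4 : ∀ S : Finset V, S.card ≤ 3 → (G.induce ((↑S : Set V)ᶜ)).Connected)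
    (hodd : ∃ (u v : V) (c : G.Walk u u) (d : G.Walk v v),
      c.IsCycle ∧ d.IsCycle ∧ Odd c.length ∧ Odd d.length ∧ ∀ x, x ∈ c.support → x ∉ d.support)
    (hI : ∃ I : Finset V, I.Nonempty ∧ (∀ x ∈ I, ∀ y ∈ I, ¬ G.Adj x y) ∧
      (nbh G I).card ≤ I.card + 2) : HasTOKS G := by
  classical
  -- a minimal such set
  obtain ⟨I0, hI0⟩ := hI
  have hex : ∃ n : ℕ, ∃ I : Finset V, I.card = n ∧ I.Nonempty ∧ (∀ x ∈ I, ∀ y ∈ I, ¬ G.Adj x y) ∧
      (nbh G I).card ≤ I.card + 2 := ⟨_, I0, rfl, hI0⟩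
  obtain ⟨W, hWc, hWne, hWi, hWs⟩ := Nat.find_spec hex
  have hmin : ∀ Y : Finset V, Y ⊆ W → Y.Nonempty → Y ≠ W → Y.card + 3 ≤ (nbh G Y).card := by
    intro Y hYW hYne hYW'
    by_contra hlt
    have h1 : Y.card < Nat.find hex := by
      rw [← hWc]
      exact Finset.card_lt_card (Finset.ssubset_iff_subset_ne.2 ⟨hYW, hYW'⟩)
    exact Nat.find_min hex h1 ⟨Y, rfl, hYne, fun x hx y hy => hWi x (hYW hx) y (hYW hy), by omega⟩
  have hnb : ∀ Y : Finset V, Y ⊆ W → ∀ v, v ∈ nbh G Y ↔ ∃ w ∈ Y, G.Adj w v := by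
    intro Y hY v
    rw [mem_nbh]
    constructor
    · exact fun h => h.2
    · rintro ⟨w, hw, hwv⟩
      exact ⟨fun hv => hWi w (hY hw) v (hY hv) hwv, w, hw, hwv⟩
  -- `|W| ≥ 2`
  have hW2 : 2 ≤ W.card := by
    by_contra hlt
    have h1 : W.card = 1 := by
      have := Finset.card_pos.2 hWne
      omega
    obtain ⟨w, rfl⟩ := Finset.card_eq_one.1 h1
    rw [h1] at hWs
    by_cases hex' : ∃ z, z ∉ ({w} : Finset V) ∧ z ∉ nbh G {w}
    · obtain ⟨z, hz1, hz2⟩ := hex'
      have := four_le_nbh G h4 hWne hz1 hz2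
      omega
    · push Not at hex'
      have h2 : (Finset.univ : Finset V) ⊆ {w} ∪ nbh G {w} := by
        intro z _
        by_cases hz : z ∈ ({w} : Finset V)
        · exact Finset.mem_union_left _ hz
        · exact Finset.mem_union_right _ (hex' z hz)
      have h3 := Finset.card_le_card h2
      have h4' := Finset.card_union_le {w} (nbh G {w})
      rw [Finset.card_univ] at h3
      rw [Finset.card_singleton] at h4'
      omega
  have hAc : (nbh G W).card = W.card + 2 := by
    obtain ⟨w, hw⟩ := hWne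
    have h1 := hmin (W.erase w) (Finset.erase_subset _ _)
      (by rw [← Finset.card_pos, Finset.card_erase_of_mem hw]; omega)
      (fun h => by
        have := Finset.card_erase_of_mem hw
        rw [h] at this
        omega)
    rw [Finset.card_erase_of_mem hw] at h1
    have h2 : nbh G (W.erase w) ⊆ nbh G W := by
      intro v hv
      rw [hnb _ (Finset.erase_subset _ _)] at hv
      rw [hnb _ (Finset.Subset.refl _)]
      obtain ⟨x, hx, hxv⟩ := hv
      exact ⟨x, Finset.mem_of_mem_erase hx, hxv⟩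
    have h3 := Finset.card_le_card h2
    omega
  have hWA : Disjoint W (nbh G W) := by
    rw [Finset.disjoint_left]
    intro x hx hx'
    exact (mem_nbh.1 hx').1 hx
  have hWN : ∀ w ∈ W, ∀ v, G.Adj w v → v ∈ nbh G W := by
    intro w hw v hwv
    rw [hnb _ (Finset.Subset.refl _)]
    exact ⟨w, hw, hwv⟩
  have hpaths : TwoOddAPaths G W (nbh G W) := by
    by_contra hno
    obtain ⟨u, v, c, d, _, _, hc, hd, hdisj⟩ := hodd
    obtain ⟨x, hx, hx'⟩ := ending G hWA hWN (by omega) (by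
      intro X hX hXW hXA S hS
      obtain ⟨w, hw⟩ := hWne
      have h1 : w ∉ X := fun h => Finset.disjoint_left.1 hXW h hw
      have h2 : w ∉ nbh G X := by
        intro h
        rw [mem_nbh] at h
        obtain ⟨_, y, hy, hyw⟩ := h
        exact Finset.disjoint_left.1 hXA hy (hWN w hw y hyw.symm)
      refine (four_le_nbh G h4 hX h1 h2).trans (Finset.card_le_card ?_)
      intro z hz
      rw [mem_nbh] at hz
      obtain ⟨hzX, y, hy, hyz⟩ := hz
      exact hS y hy z hyz hzX) hno c d hc hd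
    exact hdisj x hx hx'
  obtain ⟨a, b, c, d, p, q, ha, hb, hc, hd, hp, hq, hpo, hqo, hpq, hpW, hqW, hpA, hqA⟩ := hpaths
  refine final5 G hWA hWN hW2 hAc ?_ ?_ ha hb hc hd p q hp hq hpo hqo hpq hpW hqW hpA hqA
  · intro v hv
    exact (hnb _ (Finset.Subset.refl _) v).1 hv
  · intro Y hYW hYne hYW' S hS
    refine (hmin Y hYW hYne hYW').trans (Finset.card_le_card ?_)
    intro v hv
    rw [hnb _ hYW] at hv
    obtain ⟨w, hw, hwv⟩ := hv
    exact hS w hw v hwv

/-- Independence number at least `(n - 2) / 2`. -/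
theorem toks_of_indep (G : SimpleGraph V) (hn : 5 ≤ Fintype.card V)
    (h4 : ∀ S : Finset V, S.card ≤ 3 → (G.induce ((↑S : Set V)ᶜ)).Connected)
    (hodd : ∃ (u v : V) (c : G.Walk u u) (d : G.Walk v v),
      c.IsCycle ∧ d.IsCycle ∧ Odd c.length ∧ Odd d.length ∧ ∀ x, x ∈ c.support → x ∉ d.support)
    (hI : ∃ I : Finset V, (∀ x ∈ I, ∀ y ∈ I, ¬ G.Adj x y) ∧
      Fintype.card V ≤ 2 * I.card + 2) : HasTOKS G := by
  classical
  obtain ⟨I, hI1, hI2⟩ := hI
  apply toks_of_surplus_two G hn h4 hodd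
  refine ⟨I, ?_, hI1, ?_⟩
  · rw [← Finset.card_pos]
    omega
  · have h1 : nbh G I ⊆ Finset.univ \ I := by
      intro v hv
      rw [Finset.mem_sdiff]
      exact ⟨Finset.mem_univ _, (mem_nbh.1 hv).1⟩
    have h2 := Finset.card_le_card h1
    rw [Finset.card_sdiff_of_subset (Finset.subset_univ _), Finset.card_univ] at h2
    omega

end Pool.Agent.TOKSP
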